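import Pool.Agent.H63.KA.Defs

/-!
# KA-3 Adj (transfer of the trace through the right adjoint; Euler forms)

`Φ ⊣ R`, `Φ` fully faithful exact linear, `R` with the induced shift structure.

(a) `pull adj t : CycTrace T`, `(pull adj t).tr M k := t.tr (R M) (R.map k ≫ (R.commShiftIso 2).hom.app M)`.
Linear: `R.map_add`, `R` linear (see `linear_right`). Cyclic: for `h : N ⟶ M`, `k : M ⟶ N[2]`
`R.map (k ≫ h⟦2⟧') ≫ comm = R.map k ≫ comm ≫ (R.map h)⟦2⟧'` (`commShiftIso_hom_naturality`),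
then `t.cyc (R.map h) (R.map k ≫ comm)`.
(b) `linear_right`: the right adjoint of a linear functor is linear: by the adjunction bijection.
(c) `pull_obj`: `(pull adj t).tr (Φ F) (Φ.map k ≫ (Φ.commShiftIso 2).hom.app F) = t.tr F k`.
The unit `η : F ⟶ R Φ F` is an isomorphism (`Φ` fully faithful), and
`R.map (Φ.map k ≫ comm_Φ) ≫ comm_R = η⁻¹ ≫ k ≫ η⟦2⟧'` (naturality of `η` and
`adj.CommShift`: `Adjunction.unit_app_commShiftIso...`/`shift_unit_app`), then `t.cyc`.
(d) `chi_left`: `chi (Φ E) M = chi E (R M)`, because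
`(Φ E ⟶ M⟦i⟧) ≃ₗ (E ⟶ R (M⟦i⟧)) ≃ₗ (E ⟶ (R M)⟦i⟧)` (linear: `homEquiv` composed with the linear `R`).
(e) `chi_iso`: `chi` is invariant under isomorphism in both variables.
-/

namespace Pool.Agent.H63.KA

open CategoryTheory Limits Pretriangulated

universe v u v' u'

variable {K : Type u} [Category.{v} K] [Preadditive K] [Linear ℂ K] [HasShift K ℤ]
    [∀ n : ℤ, (shiftFunctor K n).Additive]
    {T : Type u'} [Category.{v'} T] [Preadditive T] [Linear ℂ T] [HasShift T ℤ]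
    [∀ n : ℤ, (shiftFunctor T n).Additive]

theorem linear_right {Φ : K ⥤ T} {R : T ⥤ K} (adj : Φ ⊣ R) [Φ.Additive] [R.Additive]
    [Φ.Linear ℂ] : R.Linear ℂ := by
  refine ⟨fun {X Y} f r => ?_⟩
  apply (adj.homEquiv _ _).symm.injective
  have h1 : Φ.map (R.map (r • f)) ≫ adj.counit.app Y = adj.counit.app X ≫ (r • f) :=
    adj.counit.naturality (r • f)
  have h2 : Φ.map (R.map f) ≫ adj.counit.app Y = adj.counit.app X ≫ f :=
    adj.counit.naturality f
  rw [Adjunction.homEquiv_counit, Adjunction.homEquiv_counit, h1,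
    Functor.map_smul (F := Φ) r (R.map f), Linear.smul_comp, h2, Linear.comp_smul]

/-- the pulled back trace -/
noncomputable def pull (R : T ⥤ K) [R.Additive] [R.Linear ℂ] [R.CommShift ℤ] (t : CycTrace K) :
    CycTrace T where
  tr M :=
    { toFun := fun k => t.tr (R.obj M) (R.map k ≫ (R.commShiftIso (2 : ℤ)).hom.app M)
      map_add' := by
        intro k k'
        rw [Functor.map_add, Preadditive.add_comp, map_add]
      map_smul' := by
        intro r k
        rw [Functor.map_smul, Linear.smul_comp, map_smul, RingHom.id_apply] }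
  cyc := by
    intro M N h k
    have h1 : R.map (k ≫ h⟦(2 : ℤ)⟧') ≫ (R.commShiftIso (2 : ℤ)).hom.app M =
        (R.map k ≫ (R.commShiftIso (2 : ℤ)).hom.app N) ≫ (R.map h)⟦(2 : ℤ)⟧' := by
      rw [Functor.map_comp, Category.assoc, Category.assoc, Functor.commShiftIso_hom_naturality]
    have h2 : R.map (h ≫ k) ≫ (R.commShiftIso (2 : ℤ)).hom.app N =
        R.map h ≫ (R.map k ≫ (R.commShiftIso (2 : ℤ)).hom.app N) := by
      rw [Functor.map_comp, Category.assoc]
    show t.tr (R.obj M) (R.map (k ≫ h⟦(2 : ℤ)⟧') ≫ (R.commShiftIso (2 : ℤ)).hom.app M) =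
      t.tr (R.obj N) (R.map (h ≫ k) ≫ (R.commShiftIso (2 : ℤ)).hom.app N)
    rw [h1, h2]
    exact t.cyc _ _

theorem pull_obj {Φ : K ⥤ T} {R : T ⥤ K} (adj : Φ ⊣ R) [Φ.Full] [Φ.Faithful] [R.Additive]
    [R.Linear ℂ] [Φ.CommShift ℤ] [R.CommShift ℤ] [adj.CommShift ℤ] (t : CycTrace K) (F : K)
    (k : F ⟶ F⟦(2 : ℤ)⟧) :
    (pull R t).tr (Φ.obj F) (Φ.map k ≫ (Φ.commShiftIso (2 : ℤ)).hom.app F) = t.tr F k := by
  have hη : IsIso (adj.unit.app F) := inferInstance
  have h1 : adj.unit.app F ≫ (R.map (Φ.map k ≫ (Φ.commShiftIso (2 : ℤ)).hom.app F) ≫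
      (R.commShiftIso (2 : ℤ)).hom.app (Φ.obj F)) = k ≫ (adj.unit.app F)⟦(2 : ℤ)⟧' := by
    have nat : adj.unit.app F ≫ R.map (Φ.map k) = k ≫ adj.unit.app (F⟦(2 : ℤ)⟧) :=
      (adj.unit.naturality k).symm
    calc adj.unit.app F ≫ (R.map (Φ.map k ≫ (Φ.commShiftIso (2 : ℤ)).hom.app F) ≫
          (R.commShiftIso (2 : ℤ)).hom.app (Φ.obj F))
        = (adj.unit.app F ≫ R.map (Φ.map k)) ≫ R.map ((Φ.commShiftIso (2 : ℤ)).hom.app F) ≫
          (R.commShiftIso (2 : ℤ)).hom.app (Φ.obj F) := by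
            simp only [Functor.map_comp, Category.assoc]
      _ = (k ≫ adj.unit.app (F⟦(2 : ℤ)⟧)) ≫ R.map ((Φ.commShiftIso (2 : ℤ)).hom.app F) ≫
          (R.commShiftIso (2 : ℤ)).hom.app (Φ.obj F) := by rw [nat]
      _ = k ≫ (adj.unit.app F)⟦(2 : ℤ)⟧' := by
            rw [Category.assoc]
            congr 1
            exact (adj.shift_unit_app (2 : ℤ) F).symm
  have h2 : R.map (Φ.map k ≫ (Φ.commShiftIso (2 : ℤ)).hom.app F) ≫
      (R.commShiftIso (2 : ℤ)).hom.app (Φ.obj F) =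
      (inv (adj.unit.app F) ≫ k) ≫ (adj.unit.app F)⟦(2 : ℤ)⟧' := by
    rw [Category.assoc, ← h1, IsIso.inv_hom_id_assoc]
  show t.tr (R.obj (Φ.obj F)) (R.map (Φ.map k ≫ (Φ.commShiftIso (2 : ℤ)).hom.app F) ≫
      (R.commShiftIso (2 : ℤ)).hom.app (Φ.obj F)) = t.tr F k
  rw [h2, t.cyc, IsIso.hom_inv_id_assoc]

theorem chi_left {Φ : K ⥤ T} {R : T ⥤ K} (adj : Φ ⊣ R) [Φ.Additive] [Φ.Linear ℂ] [R.CommShift ℤ]
    (E : K) (M : T) : chi (Φ.obj E) M = chi E (R.obj M) := by
  unfold chi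
  refine finsum_congr fun i => ?_
  congr 2
  let f : (E ⟶ (R.obj M)⟦i⟧) →ₗ[ℂ] (Φ.obj E ⟶ M⟦i⟧) :=
    { toFun := fun g => (adj.homEquiv E (M⟦i⟧)).symm (g ≫ (R.commShiftIso i).inv.app M)
      map_add' := by
        intro g g'
        rw [Adjunction.homEquiv_counit, Adjunction.homEquiv_counit, Adjunction.homEquiv_counit,
          Preadditive.add_comp, Functor.map_add, Preadditive.add_comp]
      map_smul' := by
        intro r g
        rw [Adjunction.homEquiv_counit, Adjunction.homEquiv_counit, Linear.smul_comp,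
          Functor.map_smul, Linear.smul_comp, RingHom.id_apply] }
  have hf : Function.Bijective f := by
    refine (adj.homEquiv E (M⟦i⟧)).symm.bijective.comp ⟨fun g g' h => ?_, fun g => ?_⟩
    · exact (cancel_mono ((R.commShiftIso i).inv.app M)).1 h
    · exact ⟨g ≫ (R.commShiftIso i).hom.app M, by simp⟩
  exact (LinearEquiv.ofBijective f hf).finrank_eq.symm

theorem chi_iso {X X' Y Y' : T} (e : X ≅ X') (e' : Y ≅ Y') : chi X Y = chi X' Y' := by
  unfold chi
  refine finsum_congr fun i => ?_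
  congr 2
  exact (Linear.homCongr ℂ e ((shiftFunctor T i).mapIso e')).finrank_eq

end Pool.Agent.H63.KA
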