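import Pool.Agent.H63.KA.Defs

/-!
# KA-2 Vanish (a cyclic trace on `D^b(coh S)` that vanishes on the line bundles is zero)

Proof. (0) If `E = ⨁ X_i` (finite) and `l` vanishes on all `X_i` then it vanishes on `E`.
(1) Claim S(r), `r : ℕ`: for all `Q`, `b` with `R Q b b` there is a distinguished triangle
`Y ⟶(y) Q ⟶(q) Z ⟶ Y[1]` with `R Z (b - 1 - r) (b - 1 - r)` and `l.tr Y k = 0` for all `k`.
(2) `R Q b b` implies `l.tr Q k = 0`: for `r` large `q : Q ⟶ Z` is zero, so `Q` is a retract of `Y`.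
(3) Induction on the amplitude.
-/

namespace Pool.Agent.H63.KA

open CategoryTheory Limits Pretriangulated

universe v u

variable {T : Type u} [Category.{v} T] [Preadditive T] [Linear ℂ T] [HasZeroObject T]
    [HasShift T ℤ] [∀ n : ℤ, (shiftFunctor T n).Additive] [Pretriangulated T] [IsTriangulated T]
    {O : ℤ → T} {R : T → ℤ → ℤ → Prop}

omit [HasZeroObject T] [Pretriangulated T] [IsTriangulated T] in
/-- (0) a cyclic trace that vanishes on the summands vanishes on the sum -/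
theorem trace_biproduct_zero {N : ℕ} (X : Fin N → T) [HasBiproduct X] (l : CycTrace T)
    (h : ∀ i k, l.tr (X i) k = 0) (k : (⨁ X) ⟶ (⨁ X)⟦(2 : ℤ)⟧) : l.tr (⨁ X) k = 0 := by
  have hk : k = ∑ i, (k ≫ (shiftFunctor T (2 : ℤ)).map (biproduct.π X i)) ≫
      (shiftFunctor T (2 : ℤ)).map (biproduct.ι X i) := by
    calc k = k ≫ (shiftFunctor T (2 : ℤ)).map (𝟙 (⨁ X)) := by simp
      _ = k ≫ (shiftFunctor T (2 : ℤ)).map (∑ i, biproduct.π X i ≫ biproduct.ι X i) := by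
          rw [biproduct.total]
      _ = _ := by
          rw [Functor.map_sum, Preadditive.comp_sum]
          refine Finset.sum_congr rfl fun i _ => ?_
          rw [Functor.map_comp, Category.assoc]
  rw [hk, map_sum]
  refine Finset.sum_eq_zero fun i _ => ?_
  rw [l.cyc (biproduct.ι X i) (k ≫ (shiftFunctor T (2 : ℤ)).map (biproduct.π X i))]
  exact h i _

omit [Linear ℂ T] [HasZeroObject T] [∀ n : ℤ, (shiftFunctor T n).Additive]
  [Pretriangulated T] [IsTriangulated T] in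
/-- shift equivalence: maps out of `A⟦-b⟧` -/
theorem map_shift_zero [∀ n : ℤ, (shiftFunctor T n).Additive] {A M : T} (b c : ℤ)
    (h : ∀ f : A ⟶ M⟦c + b⟧, f = 0) (f : A⟦-b⟧ ⟶ M⟦c⟧) : f = 0 := by
  apply (shiftFunctor T b).map_injective
  rw [Functor.map_zero]
  have h1 := h ((shiftFunctorCompIsoId T (-b) b (by simp)).inv.app A ≫
    (shiftFunctor T b).map f ≫ (shiftFunctorAdd T c b).inv.app M)
  rw [← cancel_epi ((shiftFunctorCompIsoId T (-b) b (by simp)).inv.app A),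
    ← cancel_mono ((shiftFunctorAdd T c b).inv.app M)]
  simpa using h1

omit [Linear ℂ T] [IsTriangulated T] in
/-- exactness of the triangle shifted by `2` -/
theorem shift_two_exact {E M M' A : T} {e : E ⟶ M} {p : M ⟶ M'} {q : M' ⟶ E⟦(1 : ℤ)⟧}
    (htri : Triangle.mk e p q ∈ distTriang T) (k : A ⟶ M⟦(2 : ℤ)⟧)
    (h0 : k ≫ (shiftFunctor T (2 : ℤ)).map p = 0) :
    ∃ k' : A ⟶ E⟦(2 : ℤ)⟧, k = k' ≫ (shiftFunctor T (2 : ℤ)).map e := by
  have htri2 := Triangle.shift_distinguished _ htri 2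
  have h2 : (Int.negOnePow 2) = 1 := by decide
  have hm1 : ((shiftFunctor (Triangle T) (2 : ℤ)).obj (Triangle.mk e p q)).mor₁ =
      (shiftFunctor T (2 : ℤ)).map e := by
    change (Int.negOnePow 2) • (shiftFunctor T (2 : ℤ)).map e = _
    rw [h2, one_smul]
  have hm2 : ((shiftFunctor (Triangle T) (2 : ℤ)).obj (Triangle.mk e p q)).mor₂ =
      (shiftFunctor T (2 : ℤ)).map p := by
    change (Int.negOnePow 2) • (shiftFunctor T (2 : ℤ)).map p = _
    rw [h2, one_smul]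
  have h3 : (show A ⟶ ((shiftFunctor (Triangle T) (2 : ℤ)).obj (Triangle.mk e p q)).obj₂ from k) ≫
      ((shiftFunctor (Triangle T) (2 : ℤ)).obj (Triangle.mk e p q)).mor₂ = 0 := by
    rw [hm2]
    exact h0
  obtain ⟨k', hk'⟩ := Triangle.coyoneda_exact₂ _ htri2 _ h3
  refine ⟨k', ?_⟩
  rw [hm1] at hk'
  exact hk'

omit [Linear ℂ T] [IsTriangulated T] in
/-- vanishing of maps into the middle term of a shifted triangle -/
theorem hom_zero_mid {A : T} (t : Triangle T) (ht : t ∈ distTriang T) (j : ℤ)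
    (h₁ : ∀ f : A ⟶ t.obj₁⟦j⟧, f = 0) (h₃ : ∀ f : A ⟶ t.obj₃⟦j⟧, f = 0)
    (f : A ⟶ t.obj₂⟦j⟧) : f = 0 := by
  have ht' := Triangle.shift_distinguished t ht j
  obtain ⟨g, hg⟩ := Triangle.coyoneda_exact₂ _ ht'
    (show A ⟶ ((shiftFunctor (Triangle T) j).obj t).obj₂ from f) (h₃ _)
  have hg0 : g = 0 := h₁ g
  rw [hg0, zero_comp] at hg
  exact hg

/-- (1) -/
theorem trace_claim (hT : SurfaceBase O R) (l : CycTrace T) (n₁ : ℤ)
    (h : ∀ n ≥ n₁, ∀ (j : ℤ) (k), l.tr ((O n)⟦j⟧) k = 0) (r : ℕ) :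
    ∀ (Q : T) (b : ℤ), R Q b b → ∃ (Y Z : T) (y : Y ⟶ Q) (q : Q ⟶ Z) (w : Z ⟶ Y⟦(1 : ℤ)⟧),
      Triangle.mk y q w ∈ distTriang T ∧ R Z (b - 1 - r) (b - 1 - r) ∧ ∀ k, l.tr Y k = 0 := by
  induction r with
  | zero =>
    intro Q b hR
    obtain ⟨n, hn, N, e, he⟩ := hT.step Q b b hR le_rfl n₁
    obtain ⟨M', p, q, htri⟩ := distinguished_cocone_triangle e
    have hR' := he M' p q htri
    have hmin : min b (b - 1) = b - 1 := by omega
    rw [hmin] at hR'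
    refine ⟨_, M', e, p, q, htri, ?_, fun k =>
      trace_biproduct_zero _ l (fun _ k => h n hn _ k) _⟩
    simpa using hR'
  | succ r ih =>
    intro Q b hR
    obtain ⟨n₀, hn₀⟩ := hT.vanish Q b b hR
    obtain ⟨n, hn, N, e, he⟩ := hT.step Q b b hR le_rfl (max n₀ n₁)
    obtain ⟨M', p, w₁, htri⟩ := distinguished_cocone_triangle e
    have hR' := he M' p w₁ htri
    have hmin : min b (b - 1) = b - 1 := by omega
    rw [hmin] at hR'
    obtain ⟨Y', Z, y', q', w', htri', hRZ, hY'⟩ := ih M' (b - 1) hR'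
    obtain ⟨Y, y, w, htriY⟩ := distinguished_cocone_triangle₁ (p ≫ q')
    have hRZ' : R Z (b - 1 - (r + 1 : ℕ)) (b - 1 - (r + 1 : ℕ)) := by
      have : b - 1 - ((r + 1 : ℕ) : ℤ) = b - 1 - 1 - r := by push_cast; ring
      rw [this]; exact hRZ
    refine ⟨Y, Z, y, p ≫ q', w, htriY, hRZ', fun k => ?_⟩
    -- octahedron
    have h12 := rot_of_distTriang _ htri
    have h23 := rot_of_distTriang _ htri'
    have h13 := rot_of_distTriang _ htriY
    obtain ⟨m₁, m₃, hmem⟩ : ∃ (m₁ : (⨁ fun _ : Fin N => (O n)⟦-b⟧)⟦(1 : ℤ)⟧ ⟶ Y⟦(1 : ℤ)⟧)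
        (m₃ : Y⟦(1 : ℤ)⟧ ⟶ Y'⟦(1 : ℤ)⟧)
        , ∃ x, Triangle.mk m₁ m₃ x ∈ distTriang T := by
      let o := Triangulated.someOctahedron (rfl : p ≫ q' = p ≫ q') h12 h23 h13
      exact ⟨o.m₁, o.m₃, _, o.mem⟩
    obtain ⟨x, hx⟩ := hmem
    obtain ⟨a, rfl⟩ := (shiftFunctor T (1 : ℤ)).map_surjective m₁
    obtain ⟨c, rfl⟩ := (shiftFunctor T (1 : ℤ)).map_surjective m₃
    -- `a ≫ k = 0`
    have hY0 : ∀ f : O n ⟶ Y⟦(2 : ℤ) + b⟧, f = 0 := by
      intro f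
      refine hom_zero_mid _ (inv_rot_of_distTriang _ htriY) (2 + b) ?_ ?_ f
      · intro g
        refine hT.cohdim (Z⟦(-1 : ℤ)⟧) _ _ (hT.shift Z _ _ (-1) hRZ') n (2 + b) ?_ g
        push_cast
        omega
      · intro g
        exact hn₀ n (le_trans (le_max_left _ _) hn) (2 + b) (by omega) g
    have h0 : a ≫ k = 0 := by
      apply biproduct.hom_ext'
      intro i
      rw [comp_zero]
      exact map_shift_zero b 2 hY0 _
    obtain ⟨k₁, hk₁⟩ := Triangle.yoneda_exact₂ _ hx (X := Y⟦(2 : ℤ)⟧⟦(1 : ℤ)⟧)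
      ((shiftFunctor T (1 : ℤ)).map k) (by
        change (shiftFunctor T (1 : ℤ)).map a ≫ (shiftFunctor T (1 : ℤ)).map k = 0
        rw [← Functor.map_comp, h0, Functor.map_zero])
    obtain ⟨k₂, rfl⟩ := (shiftFunctor T (1 : ℤ)).map_surjective
      (show Y'⟦(1 : ℤ)⟧ ⟶ Y⟦(2 : ℤ)⟧⟦(1 : ℤ)⟧ from k₁)
    have hk : k = c ≫ k₂ := by
      apply (shiftFunctor T (1 : ℤ)).map_injective
      rw [Functor.map_comp]
      exact hk₁
    rw [hk, ← l.cyc c]
    exact hY' _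

/-- (2) -/
theorem trace_sheaf (hT : SurfaceBase O R) (l : CycTrace T) (n₁ : ℤ)
    (h : ∀ n ≥ n₁, ∀ (j : ℤ) (k), l.tr ((O n)⟦j⟧) k = 0) (Q : T) (b : ℤ) (hR : R Q b b)
    (k : Q ⟶ Q⟦(2 : ℤ)⟧) : l.tr Q k = 0 := by
  obtain ⟨D, hD⟩ := hT.homdim
  obtain ⟨Y, Z, y, q, w, htri, hRZ, hY⟩ := trace_claim hT l n₁ h D Q b hR
  have hq : q = 0 := hD Q Z b b _ _ hR hRZ (by omega) q
  obtain ⟨s, hs'⟩ : ∃ s : Q ⟶ Y, 𝟙 Q = s ≫ y :=
    Triangle.coyoneda_exact₂ _ htri (𝟙 Q) (by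
      change 𝟙 Q ≫ q = 0
      rw [hq, comp_zero])
  have hk : k = (k ≫ (shiftFunctor T (2 : ℤ)).map s) ≫ (shiftFunctor T (2 : ℤ)).map y := by
    rw [Category.assoc, ← Functor.map_comp, ← hs', CategoryTheory.Functor.map_id, Category.comp_id]
  rw [hk, l.cyc y]
  exact hY _

theorem trace_zero_aux (hT : SurfaceBase O R) (l : CycTrace T) (n₁ : ℤ)
    (h : ∀ n ≥ n₁, ∀ (j : ℤ) (k), l.tr ((O n)⟦j⟧) k = 0) (d : ℕ) :
    ∀ (M : T) (a b : ℤ), R M a b → (b - a + 1).toNat ≤ d →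
      ∀ k : M ⟶ M⟦(2 : ℤ)⟧, l.tr M k = 0 := by
  induction d with
  | zero =>
    intro M a b hR hd k
    have hba : b < a := by omega
    have : k = 0 := (hT.zero_of M a b hR hba).eq_of_src _ _
    rw [this, map_zero]
  | succ d ih =>
    intro M a b hR hd k
    rcases lt_or_ge b a with hba | hab
    · have : k = 0 := (hT.zero_of M a b hR hba).eq_of_src _ _
      rw [this, map_zero]
    rcases eq_or_lt_of_le hab with rfl | hlt
    · exact trace_sheaf hT l n₁ h M a hR k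
    · -- `a < b`
      obtain ⟨n₀, hn₀⟩ := hT.vanish M a b hR
      obtain ⟨n, hn, N, e, he⟩ := hT.step M a b hR hab (max n₀ n₁)
      obtain ⟨M', p, q, htri⟩ := distinguished_cocone_triangle e
      have hR' := he M' p q htri
      have hmin : min a (b - 1) = a := by omega
      rw [hmin] at hR'
      have h0 : e ≫ k = 0 := by
        apply biproduct.hom_ext'
        intro i
        rw [comp_zero]
        apply map_shift_zero b 2
        intro f
        exact hn₀ n (le_trans (le_max_left _ _) hn) (2 + b) (by omega) f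
      obtain ⟨k₁, hk₁⟩ := Triangle.yoneda_exact₂ _ htri (X := M⟦(2 : ℤ)⟧) k h0
      have hk2 : k = p ≫ (show M' ⟶ M⟦(2 : ℤ)⟧ from k₁) := hk₁
      rw [hk2, ← l.cyc p]
      exact ih M' a (b - 1) hR' (by omega) _

theorem trace_zero (hT : SurfaceAx O R) (l : CycTrace T) (n₁ : ℤ)
    (h : ∀ n ≥ n₁, ∀ (j : ℤ) (k), l.tr ((O n)⟦j⟧) k = 0) (M : T) (k : M ⟶ M⟦(2 : ℤ)⟧) :
    l.tr M k = 0 := by
  obtain ⟨a, b, hR⟩ := hT.exists_range M
  exact trace_zero_aux hT.toSurfaceBase l n₁ h _ M a b hR le_rfl k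

end Pool.Agent.H63.KA
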