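import Pool.Agent.H63.KA.Approx
import Pool.Agent.H63.KA.Vanish
import Pool.Agent.H63.KA.Adj

/-!
# KA-4 Final (a category with `K3Data` does not embed in a category with `SurfaceAx`)

Proof. (a) By `exists_univ` every `M : T` has a universal `ξ : Φ A ⟶ M`, i.e. a terminal object of
`CostructuredArrow Φ M`; so `Φ` has a right adjoint `R` (Mathlib
`CategoryTheory/Adjunction/Comma.lean`: `adjunctionOfCostructuredArrowTerminals`, or
`Adjunction.rightAdjointOfEquiv`). `R` gets the shift structure `adj.rightAdjointCommShift ℤ` with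
`adj.CommShift ℤ`, it is triangulated (`Adjunction.isTriangulated_rightAdjoint`), additive, linear
(`linear_right`).
(b) `l := pull R hK.tr` is not zero (`pull_obj`, `hK.tr_ne`), so by `trace_zero` (with `n₁ = 0`)
there are `n, j, k` with `l.tr ((O n)⟦j⟧) k ≠ 0`; let `P` be the point object (`hT.point`).
(c) Let `ε : Φ R P ⟶ P` be the counit, `Φ R P ⟶(ε) P ⟶(q) A ⟶(d) (Φ R P)[1]` distinguished. `R.map ε`
is an isomorphism (`Φ` fully faithful: the unit is an isomorphism, triangle identity), `R` is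
triangulated, so `R A` is a zero object. Let `N := A⟦-2⟧`, `p : P ⟶ N⟦2⟧` = `q` followed by the
isomorphism `A ≅ (A⟦-2⟧)⟦2⟧`. For `h : N ⟶ P`: `l.tr P (p ≫ h⟦2⟧')` involves `R.map (p ≫ h⟦2⟧')`
which is zero since it factors through `R (N⟦2⟧) ≅ R A = 0`. So `p = 0`, `q = 0`.
(d) `q = 0` gives `𝟙 A = d ≫ s` with `s : (Φ R P)⟦1⟧ ⟶ A` (`Triangle.yoneda_exact₃`); `s` is zero,
since `(Φ R P)⟦1⟧ ≅ Φ ((R P)⟦1⟧)` and `Hom(Φ X, A) ≃ Hom(X, R A) = 0`. So `A` is zero and `ε` is an
isomorphism (`Triangle.isZero₃_iff_isIso₁` or similar).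
(e) `E := R P`. `chi E E = chi E (R P) = chi (Φ E) P = chi P P = 0`. Let `chi P M ≠ 0`:
`chi E (R M) = chi (Φ E) M = chi P M ≠ 0`, contradiction to `hK.chi_rad E (R M)`.
-/

namespace Pool.Agent.H63.KA

open CategoryTheory Limits Pretriangulated

universe v u v' u'

/-- The statement with a given right adjoint. -/
private theorem ka4_aux
    {K : Type u} [Category.{v} K] [Preadditive K] [Linear ℂ K] [HasZeroObject K] [HasShift K ℤ]
    [∀ n : ℤ, (shiftFunctor K n).Additive] [Pretriangulated K] [IsTriangulated K]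
    {T : Type u'} [Category.{v'} T] [Preadditive T] [Linear ℂ T] [HasZeroObject T] [HasShift T ℤ]
    [∀ n : ℤ, (shiftFunctor T n).Additive] [Pretriangulated T] [IsTriangulated T]
    (hK : K3Data K) {O : ℤ → T} {R : T → ℤ → ℤ → Prop} (hT : SurfaceAx O R)
    (Φ : K ⥤ T) [Φ.CommShift ℤ] [Φ.IsTriangulated] [Φ.Full] [Φ.Faithful] [Φ.Linear ℂ]
    {S : T ⥤ K} (adj : Φ ⊣ S) [S.CommShift ℤ] [adj.CommShift ℤ] [S.IsTriangulated]
    [S.Additive] [S.Linear ℂ] : False := by
  obtain ⟨F, k, hk⟩ := hK.tr_ne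
  -- some line bundle has a nonzero trace
  obtain ⟨n, j, hnj⟩ : ∃ n j : ℤ, ∃ k, (pull S hK.tr).tr ((O n)⟦j⟧) k ≠ 0 := by
    by_contra hcon
    push Not at hcon
    have h1 := trace_zero hT (pull S hK.tr) 0 (fun n _ j k => hcon n j k) (Φ.obj F)
      (Φ.map k ≫ (Φ.commShiftIso (2 : ℤ)).hom.app F)
    rw [pull_obj adj] at h1
    exact hk h1
  obtain ⟨P, hP, hPP, M, hPM⟩ := hT.point (pull S hK.tr) n j hnj
  obtain ⟨A, q, d, hd⟩ := distinguished_cocone_triangle (adj.counit.app P)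
  -- `S A` is zero
  have hSA : IsZero (S.obj A) := by
    have h1 := S.map_distinguished _ hd
    refine Triangle.isZero₃_of_isIso₁ _ h1 ?_
    show IsIso (S.map (adj.counit.app P))
    have h2 : adj.unit.app (S.obj P) ≫ S.map (adj.counit.app P) = 𝟙 (S.obj P) :=
      adj.right_triangle_components P
    have h3 : IsIso (adj.unit.app (S.obj P)) := inferInstance
    have h5 : IsIso (𝟙 (S.obj P)) := IsIso.id (S.obj P)
    have h4 : IsIso (adj.unit.app (S.obj P) ≫ S.map (adj.counit.app P)) := by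
      rw [h2]
      exact h5
    exact IsIso.of_isIso_comp_left (adj.unit.app (S.obj P)) _
  -- `q = 0`
  have hq : q = 0 := by
    have h1 : q ≫ (shiftNegShift A (2 : ℤ)).inv = 0 := by
      refine hP (A⟦(-2 : ℤ)⟧) (q ≫ (shiftNegShift A (2 : ℤ)).inv) fun h => ?_
      have h2 : S.map q = 0 := hSA.eq_of_tgt _ _
      have h3 : S.map ((q ≫ (shiftNegShift A (2 : ℤ)).inv) ≫ h⟦(2 : ℤ)⟧') = 0 := by
        rw [Functor.map_comp, Functor.map_comp, h2, zero_comp, zero_comp]
      show hK.tr.tr (S.obj P) (S.map ((q ≫ (shiftNegShift A (2 : ℤ)).inv) ≫ h⟦(2 : ℤ)⟧') ≫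
        (S.commShiftIso (2 : ℤ)).hom.app P) = 0
      rw [h3, zero_comp, map_zero]
    rw [← cancel_mono (shiftNegShift A (2 : ℤ)).inv, h1, zero_comp]
  -- `A = 0`
  have hA : IsZero A := by
    obtain ⟨s, hs⟩ : ∃ s : (Φ.obj (S.obj P))⟦(1 : ℤ)⟧ ⟶ A, 𝟙 A = d ≫ s :=
      Triangle.yoneda_exact₃ _ hd (𝟙 A) (by
        show q ≫ 𝟙 A = 0
        rw [hq, zero_comp])
    have hs0 : s = 0 := by
      have h1 : (Φ.commShiftIso (1 : ℤ)).hom.app (S.obj P) ≫ s = 0 := by
        apply (adj.homEquiv _ _).injective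
        exact hSA.eq_of_tgt _ _
      rw [← cancel_epi ((Φ.commShiftIso (1 : ℤ)).hom.app (S.obj P)), h1, comp_zero]
    rw [IsZero.iff_id_eq_zero]
    rw [hs, hs0, comp_zero]
  have hε : IsIso (adj.counit.app P) := (Triangle.isZero₃_iff_isIso₁ _ hd).1 hA
  -- the numerical contradiction
  have h0 : chi (Φ.obj (S.obj P)) P = chi P P :=
    chi_iso (asIso (adj.counit.app P)) (Iso.refl P)
  have h1 : chi (S.obj P) (S.obj P) = 0 :=
    (chi_left adj (S.obj P) P).symm.trans (h0.trans hPP)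
  have h2 : chi (S.obj P) (S.obj M) = 0 := hK.chi_rad _ _ h1
  have h3 : chi (Φ.obj (S.obj P)) M = chi P M :=
    chi_iso (asIso (adj.counit.app P)) (Iso.refl M)
  exact hPM (h3.symm.trans ((chi_left adj (S.obj P) M).trans h2))

theorem no_embedding
    {K : Type u} [Category.{v} K] [Preadditive K] [Linear ℂ K] [HasZeroObject K] [HasShift K ℤ]
    [∀ n : ℤ, (shiftFunctor K n).Additive] [Pretriangulated K] [IsTriangulated K]
    {T : Type u'} [Category.{v'} T] [Preadditive T] [Linear ℂ T] [HasZeroObject T] [HasShift T ℤ]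
    [∀ n : ℤ, (shiftFunctor T n).Additive] [Pretriangulated T] [IsTriangulated T]
    (hK : K3Data K) {O : ℤ → T} {R : T → ℤ → ℤ → Prop} (hT : SurfaceAx O R)
    (Φ : K ⥤ T) [Φ.CommShift ℤ] [Φ.IsTriangulated] [Φ.Full] [Φ.Faithful] [Φ.Linear ℂ] :
    False := by
  have : Finite hK.ι := hK.fin
  choose A ξ hU using fun M : T => exists_univ Φ hK.G hK.n hK.gen hK.idem hT.extFin M
  let e : ∀ (X : K) (Y : T), (Φ.obj X ⟶ Y) ≃ (X ⟶ A Y) :=
    fun X Y => (Equiv.ofBijective _ (hU Y X)).symm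
  have hes : ∀ (X : K) (Y : T) (g : X ⟶ A Y), (e X Y).symm g = Φ.map g ≫ ξ Y := fun X Y g => rfl
  have he : ∀ (X' X : K) (Y : T) (f : X' ⟶ X) (g : Φ.obj X ⟶ Y),
      e X' Y (Φ.map f ≫ g) = f ≫ e X Y g := by
    intro X' X Y f g
    apply (e X' Y).symm.injective
    rw [Equiv.symm_apply_apply, hes, Functor.map_comp, Category.assoc, ← hes,
      Equiv.symm_apply_apply]
  let S : T ⥤ K := Adjunction.rightAdjointOfEquiv e he
  let adj : Φ ⊣ S := Adjunction.adjunctionOfEquivRight e he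
  have : S.Additive := adj.right_adjoint_additive
  have : S.Linear ℂ := linear_right adj
  let : S.CommShift ℤ := adj.rightAdjointCommShift ℤ
  have : adj.CommShift ℤ := adj.commShift_of_leftAdjoint ℤ
  have : S.IsTriangulated := adj.isTriangulated_rightAdjoint
  exact ka4_aux hK hT Φ adj

end Pool.Agent.H63.KA
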