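import Mathlib

/-!
# MP_7692e7_ag, block ABS: definitions

`K` = a triangulated category which is supposed to embed in the derived category `T` of a surface.

* `CycTrace T` : cyclic traces of degree 2 (functionals on all `Hom(M, M[2])`);
* `chi X Y` : Euler form `∑ᶠ i, (-1)^i dim Hom(X, Y[i])`;
* `ExtFin X Y` : all `Hom(X, Y[i])` finite dimensional, and zero for `|i|` large;
* `K3Data K` : what is needed from the category `K`;
* `SurfaceAx O R` : what is needed from `T = D^b(coh S)`; `O n` is the line bundle `O(-n)`, and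
  `R M a b` means: the cohomology sheaves of `M` vanish outside the degrees `[a, b]`.
-/

namespace Pool.Agent.H63.KA

open CategoryTheory Limits Pretriangulated

universe v u v' u'

/-- A cyclic trace of degree `2` on a `ℂ`-linear category with shift: linear functionals
`tr M : Hom(M, M[2]) → ℂ` with `tr M (k ≫ h[2]) = tr N (h ≫ k)` for `h : N → M`,
`k : M → N[2]`. -/
structure CycTrace (T : Type u) [Category.{v} T] [Preadditive T] [Linear ℂ T]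
    [HasShift T ℤ] where
  tr : ∀ M : T, (M ⟶ M⟦(2 : ℤ)⟧) →ₗ[ℂ] ℂ
  cyc : ∀ {M N : T} (h : N ⟶ M) (k : M ⟶ N⟦(2 : ℤ)⟧),
    tr M (k ≫ h⟦(2 : ℤ)⟧') = tr N (h ≫ k)

section
variable {T : Type u} [Category.{v} T] [Preadditive T] [Linear ℂ T] [HasShift T ℤ]

/-- The Euler form `∑ (-1)^i dim Hom(X, Y[i])`. -/
noncomputable def chi (X Y : T) : ℤ :=
  ∑ᶠ i : ℤ, (Int.negOnePow i : ℤ) * (Module.finrank ℂ (X ⟶ Y⟦i⟧) : ℤ)

/-- All `Hom(X, Y[i])` are finite dimensional, and zero for `|i|` large. -/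
structure ExtFin (X Y : T) : Prop where
  fin : ∀ i : ℤ, Module.Finite ℂ (X ⟶ Y⟦i⟧)
  bdd : ∃ B : ℕ, ∀ i : ℤ, (B : ℤ) ≤ |i| → ∀ f : X ⟶ Y⟦i⟧, f = 0

end

/-- What is needed from the category `K` that is supposed to embed in `D^b(coh S)`. -/
structure K3Data (K : Type u) [Category.{v} K] [Preadditive K] [Linear ℂ K] [HasZeroObject K]
    [HasShift K ℤ] [∀ n : ℤ, (shiftFunctor K n).Additive] [Pretriangulated K] where
  /-- index type of the generators -/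
  ι : Type
  fin : Finite ι
  /-- the generators -/
  G : ι → K
  /-- number of steps -/
  n : ℕ
  gen : (ObjectProperty.ofObj G).triangEnvelopeIter n = ⊤
  idem : IsIdempotentComplete K
  tr : CycTrace K
  tr_ne : ∃ (F : K) (k : F ⟶ F⟦(2 : ℤ)⟧), tr.tr F k ≠ 0
  chi_rad : ∀ E F : K, chi E E = 0 → chi E F = 0

section
variable {T : Type u} [Category.{v} T] [Preadditive T] [Linear ℂ T] [HasZeroObject T]
    [HasShift T ℤ] [∀ n : ℤ, (shiftFunctor T n).Additive] [Pretriangulated T]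

/-- What is needed from `T = D^b(coh S)`, `S` a smooth projective surface, without the point
objects. `O n` is `O_S(-n)`; `R M a b` : cohomology sheaves of `M` only in degrees `[a, b]`. -/
structure SurfaceBase (O : ℤ → T) (R : T → ℤ → ℤ → Prop) : Prop where
  /-- every object is bounded -/
  exists_range : ∀ M : T, ∃ a b : ℤ, R M a b
  /-- shifts -/
  shift : ∀ (M : T) (a b n : ℤ), R M a b → R (M⟦n⟧) (a - n) (b - n)
  /-- an object without cohomology is zero -/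
  zero_of : ∀ (M : T) (a b : ℤ), R M a b → b < a → IsZero M
  /-- Serre vanishing -/
  vanish : ∀ (M : T) (a b : ℤ), R M a b → ∃ n₀ : ℤ, ∀ n ≥ n₀, ∀ j > b,
    ∀ f : O n ⟶ M⟦j⟧, f = 0
  /-- the top cohomology sheaf is generated by maps from `O(-n)`, `n` large -/
  step : ∀ (M : T) (a b : ℤ), R M a b → a ≤ b → ∀ n₁ : ℤ, ∃ n ≥ n₁, ∃ (k : ℕ)
    (e : (⨁ fun _ : Fin k => (O n)⟦-b⟧) ⟶ M), ∀ (M' : T) (p : M ⟶ M')
      (d : M' ⟶ (⨁ fun _ : Fin k => (O n)⟦-b⟧)⟦(1 : ℤ)⟧),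
      Triangle.mk e p d ∈ distTriang T → R M' (min a (b - 1)) (b - 1)
  /-- cohomological dimension two -/
  cohdim : ∀ (M : T) (a b : ℤ), R M a b → ∀ n j : ℤ, b + 2 < j → ∀ f : O n ⟶ M⟦j⟧, f = 0
  /-- finite homological dimension -/
  homdim : ∃ D : ℕ, ∀ (M N : T) (a b c d : ℤ), R M a b → R N c d → d + D ≤ a →
    ∀ f : M ⟶ N, f = 0
  /-- finiteness -/
  extFin : ∀ M N : T, ExtFin M N

/-- What is needed from `T = D^b(coh S)`, `S` a smooth projective surface. -/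
structure SurfaceAx (O : ℤ → T) (R : T → ℤ → ℤ → Prop) : Prop extends SurfaceBase O R where
  /-- point objects: for every cyclic trace that does not vanish on some `O(-n)[j]`,
  there is a point-like object on which it is nondegenerate -/
  point : ∀ (l : CycTrace T) (n j : ℤ), (∃ k, l.tr ((O n)⟦j⟧) k ≠ 0) →
    ∃ P : T, (∀ (N : T) (p : P ⟶ N⟦(2 : ℤ)⟧),
        (∀ h : N ⟶ P, l.tr P (p ≫ h⟦(2 : ℤ)⟧') = 0) → p = 0) ∧
      chi P P = 0 ∧ ∃ M : T, chi P M ≠ 0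

/-- Point-like objects `Y` (skyscraper sheaves of length one). -/
structure IsPoint (O : ℤ → T) (Y : T) : Prop where
  left_zero : ∀ n i : ℤ, i ≠ 0 → ∀ f : O n ⟶ Y⟦i⟧, f = 0
  left_one : ∀ n : ℤ, Module.finrank ℂ (O n ⟶ Y) ≤ 1
  right_zero : ∀ n i : ℤ, i ≠ 2 → ∀ f : Y ⟶ (O n)⟦i⟧, f = 0
  right_one : ∀ n : ℤ, Module.finrank ℂ (Y ⟶ (O n)⟦(2 : ℤ)⟧) ≤ 1
  lift : ∀ n : ℤ, ∃ h : O n ⟶ Y, ∀ k : Y ⟶ Y⟦(2 : ℤ)⟧, ∃ k' : Y ⟶ (O n)⟦(2 : ℤ)⟧,
    k = k' ≫ h⟦(2 : ℤ)⟧'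
  chi_self : chi Y Y = 0
  chi_ne : ∃ M : T, chi Y M ≠ 0

/-- For every line bundle `O n` there is a Koszul object `P` of two sections `u, v` of `O(m)`,
`m` large, which is a direct sum of point-like objects. -/
structure HasKoszul (O : ℤ → T) : Prop where
  kos : ∀ n : ℤ, ∃ (O₁ O₂ D₀ D₁ P : T) (u : O₁ ⟶ O n) (a : O n ⟶ D₀) (b : D₀ ⟶ O₁⟦(1 : ℤ)⟧)
    (u' : O₂ ⟶ O₁) (a' : O₁ ⟶ D₁) (b' : D₁ ⟶ O₂⟦(1 : ℤ)⟧)
    (v : D₁ ⟶ D₀) (c : D₀ ⟶ P) (d : P ⟶ D₁⟦(1 : ℤ)⟧) (r : ℕ) (Y : Fin r → T),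
    Triangle.mk u a b ∈ distTriang T ∧ Triangle.mk u' a' b' ∈ distTriang T ∧
    Triangle.mk v c d ∈ distTriang T ∧
    (∀ f : O₁ ⟶ (O n)⟦(2 : ℤ)⟧, f = 0) ∧ (∀ f : O₂ ⟶ (O n)⟦(1 : ℤ)⟧, f = 0) ∧
    Nonempty (P ≅ ⨁ Y) ∧ ∀ i, IsPoint O (Y i)

end

end Pool.Agent.H63.KA
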