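import Pool.Agent.H63.KA.Defs

/-!
# KA-5 Kos (a cyclic trace passes from a line bundle to a point object)

(a) `shiftTrace l j` : the cyclic trace `M ↦ l (M[j])`: for `k : M ⟶ M[2]` take
`k⟦j⟧' ≫ (comm)` with `comm : M⟦2⟧⟦j⟧ ≅ M⟦j⟧⟦2⟧` = `(shiftFunctorComm T 2 j).hom.app M`; cyclic
because this isomorphism is natural.  (`shiftTrace_ne`: if `l.tr (M⟦j⟧) k ≠ 0` for some `k` then
`(shiftTrace l j).tr M k' ≠ 0` for some `k'`: `shiftFunctor T j` is full and faithful.)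
(b) `trace_kos`: triangles `O₁ ⟶(u) O₀ ⟶(a) D₀`, `O₂ ⟶(u') O₁ ⟶(a') D₁`, `D₁ ⟶(v) D₀ ⟶(c) P`,
`Hom(O₁, O₀[2]) = 0`, `Hom(O₂, O₀[1]) = 0`, `k : O₀ ⟶ O₀[2]` with `l k ≠ 0`. Then `u ≫ k = 0`, so
`k = a ≫ k'`, `k' : D₀ ⟶ O₀[2]`; `v ≫ k' : D₁ ⟶ O₀[2]` is zero, because `a' ≫ (v ≫ k')` is a map
`O₁ ⟶ O₀[2]`, hence zero, so `v ≫ k'` factors through `b' : D₁ ⟶ O₂[1]` and a map
`O₂[1] ⟶ O₀[2]`, which is zero (shift by `-1`, i.e. `Hom(O₂, O₀[1]) = 0`; note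
`O₀⟦2⟧ ≅ O₀⟦1⟧⟦1⟧` and `shiftFunctor T 1` is full). So `k' = c ≫ k''`, `k'' : P ⟶ O₀[2]`, and
`l O₀ (a ≫ c ≫ k'') = l P (k'' ≫ (a ≫ c)⟦2⟧')` by `cyc` (with `h = a ≫ c`), so
`l P (k'' ≫ (a ≫ c)⟦2⟧') ≠ 0`.
(c) `trace_sum`: if `P ≅ ⨁ Y` (finite) and `l P k ≠ 0` then `l (Y i) k' ≠ 0` for some `i`, `k'`:
for `P = ⨁ Y` write `k = ∑ i, k ≫ (π_i ≫ ι_i)⟦2⟧'`,
`l ((k ≫ π_i⟦2⟧') ≫ ι_i⟦2⟧') = l (ι_i ≫ k ≫ π_i⟦2⟧')`; an isomorphism `e : P ≅ P'`: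
`l P k = l P ((k ≫ e.hom⟦2⟧') ≫ e.inv⟦2⟧') = l P' (e.inv ≫ k ≫ e.hom⟦2⟧')`.
-/

namespace Pool.Agent.H63.KA

open CategoryTheory Limits Pretriangulated

universe v u

variable {T : Type u} [Category.{v} T] [Preadditive T] [Linear ℂ T] [HasZeroObject T]
    [HasShift T ℤ] [∀ n : ℤ, (shiftFunctor T n).Additive]

/-- the shifted trace -/
noncomputable def shiftTrace [∀ n : ℤ, (shiftFunctor T n).Linear ℂ] (l : CycTrace T) (j : ℤ) :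
    CycTrace T where
  tr M :=
    { toFun := fun k => l.tr (M⟦j⟧) (k⟦j⟧' ≫ (shiftFunctorComm T (2 : ℤ) j).hom.app M)
      map_add' := by
        intro x y
        rw [Functor.map_add, Preadditive.add_comp, map_add]
      map_smul' := by
        intro r x
        rw [Functor.map_smul, Linear.smul_comp, map_smul]
        rfl }
  cyc := by
    intro M N h k
    change l.tr (M⟦j⟧) ((shiftFunctor T j).map (k ≫ (shiftFunctor T (2 : ℤ)).map h) ≫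
        (shiftFunctorComm T (2 : ℤ) j).hom.app M) =
      l.tr (N⟦j⟧) ((shiftFunctor T j).map (h ≫ k) ≫ (shiftFunctorComm T (2 : ℤ) j).hom.app N)
    have h1 : (shiftFunctor T j).map ((shiftFunctor T (2 : ℤ)).map h) ≫
        (shiftFunctorComm T (2 : ℤ) j).hom.app M = (shiftFunctorComm T (2 : ℤ) j).hom.app N ≫
        (shiftFunctor T (2 : ℤ)).map ((shiftFunctor T j).map h) :=
      (shiftFunctorComm T (2 : ℤ) j).hom.naturality h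
    have h2 : (shiftFunctor T j).map (k ≫ (shiftFunctor T (2 : ℤ)).map h) ≫
        (shiftFunctorComm T (2 : ℤ) j).hom.app M =
        ((shiftFunctor T j).map k ≫ (shiftFunctorComm T (2 : ℤ) j).hom.app N) ≫
          (shiftFunctor T (2 : ℤ)).map ((shiftFunctor T j).map h) := by
      rw [Functor.map_comp, Category.assoc, h1, Category.assoc]
    rw [h2, l.cyc, Functor.map_comp, Category.assoc]

theorem shiftTrace_ne [∀ n : ℤ, (shiftFunctor T n).Linear ℂ] (l : CycTrace T) (j : ℤ) (M : T)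
    (h : ∃ k, l.tr (M⟦j⟧) k ≠ 0) : ∃ k, (shiftTrace l j).tr M k ≠ 0 := by
  obtain ⟨k, hk⟩ := h
  obtain ⟨k₀, hk₀⟩ := (shiftFunctor T j).map_surjective
    (k ≫ (shiftFunctorComm T (2 : ℤ) j).inv.app M)
  refine ⟨k₀, ?_⟩
  change l.tr (M⟦j⟧) ((shiftFunctor T j).map k₀ ≫ (shiftFunctorComm T (2 : ℤ) j).hom.app M) ≠ 0
  have h1 : (k ≫ (shiftFunctorComm T (2 : ℤ) j).inv.app M) ≫
      (shiftFunctorComm T (2 : ℤ) j).hom.app M = k := by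
    rw [Category.assoc, Iso.inv_hom_id_app]
    exact Category.comp_id k
  rw [hk₀, h1]
  exact hk

theorem trace_sum [HasFiniteBiproducts T] (l : CycTrace T) {P : T} {r : ℕ} {Y : Fin r → T}
    (e : P ≅ ⨁ Y) (h : ∃ k, l.tr P k ≠ 0) : ∃ (i : Fin r) (k : Y i ⟶ (Y i)⟦(2 : ℤ)⟧),
      l.tr (Y i) k ≠ 0 := by
  obtain ⟨k, hk⟩ := h
  by_contra hcon
  push Not at hcon
  apply hk
  -- `k` as an endomorphism of the biproduct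
  have hs : ∀ q : (⨁ Y) ⟶ (⨁ Y)⟦(2 : ℤ)⟧, l.tr (⨁ Y) q = 0 := by
    intro q
    have hq : q = ∑ i, (q ≫ (shiftFunctor T (2 : ℤ)).map (biproduct.π Y i)) ≫
        (shiftFunctor T (2 : ℤ)).map (biproduct.ι Y i) := by
      calc q = q ≫ (shiftFunctor T (2 : ℤ)).map (𝟙 (⨁ Y)) := by simp
        _ = q ≫ (shiftFunctor T (2 : ℤ)).map (∑ i, biproduct.π Y i ≫ biproduct.ι Y i) := by
            rw [biproduct.total]
        _ = _ := by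
            rw [Functor.map_sum, Preadditive.comp_sum]
            refine Finset.sum_congr rfl fun i _ => ?_
            rw [Functor.map_comp, Category.assoc]
    rw [hq, map_sum]
    refine Finset.sum_eq_zero fun i _ => ?_
    rw [l.cyc (biproduct.ι Y i) (q ≫ (shiftFunctor T (2 : ℤ)).map (biproduct.π Y i))]
    exact hcon i _
  have h1 : k = (k ≫ (shiftFunctor T (2 : ℤ)).map e.hom) ≫
      (shiftFunctor T (2 : ℤ)).map e.inv := by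
    rw [Category.assoc, ← Functor.map_comp, Iso.hom_inv_id, CategoryTheory.Functor.map_id,
      Category.comp_id]
  rw [h1, l.cyc e.inv (k ≫ (shiftFunctor T (2 : ℤ)).map e.hom)]
  exact hs _

omit [Linear ℂ T] [HasZeroObject T] in
theorem shift_one_zero {A M : T} (z : ∀ f : A ⟶ M⟦(1 : ℤ)⟧, f = 0)
    (g : A⟦(1 : ℤ)⟧ ⟶ M⟦(2 : ℤ)⟧) : g = 0 := by
  obtain ⟨g₀, hg₀⟩ := (shiftFunctor T (1 : ℤ)).map_surjective
    (g ≫ (shiftFunctorAdd' T (1 : ℤ) 1 2 (by norm_num)).hom.app M)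
  rw [z g₀, Functor.map_zero] at hg₀
  rw [← cancel_mono ((shiftFunctorAdd' T (1 : ℤ) 1 2 (by norm_num)).hom.app M), zero_comp]
  exact hg₀.symm

theorem trace_kos [Pretriangulated T] (l : CycTrace T) {O₀ O₁ O₂ D₀ D₁ P : T}
    (u : O₁ ⟶ O₀) (a : O₀ ⟶ D₀) (b : D₀ ⟶ O₁⟦(1 : ℤ)⟧)
    (u' : O₂ ⟶ O₁) (a' : O₁ ⟶ D₁) (b' : D₁ ⟶ O₂⟦(1 : ℤ)⟧)
    (v : D₁ ⟶ D₀) (c : D₀ ⟶ P) (d : P ⟶ D₁⟦(1 : ℤ)⟧)
    (h₁ : Triangle.mk u a b ∈ distTriang T) (h₂ : Triangle.mk u' a' b' ∈ distTriang T)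
    (h₃ : Triangle.mk v c d ∈ distTriang T)
    (z₁ : ∀ f : O₁ ⟶ O₀⟦(2 : ℤ)⟧, f = 0) (z₂ : ∀ f : O₂ ⟶ O₀⟦(1 : ℤ)⟧, f = 0)
    (h : ∃ k, l.tr O₀ k ≠ 0) : ∃ k, l.tr P k ≠ 0 := by
  obtain ⟨k, hk⟩ := h
  obtain ⟨k', hk'⟩ : ∃ k' : D₀ ⟶ O₀⟦(2 : ℤ)⟧, k = a ≫ k' :=
    Triangle.yoneda_exact₂ _ h₁ k (z₁ _)
  have hv : v ≫ k' = 0 := by
    obtain ⟨g, hg⟩ : ∃ g : O₂⟦(1 : ℤ)⟧ ⟶ O₀⟦(2 : ℤ)⟧, v ≫ k' = b' ≫ g :=
      Triangle.yoneda_exact₃ _ h₂ (v ≫ k') (z₁ _)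
    rw [hg, shift_one_zero z₂ g, comp_zero]
  obtain ⟨k'', hk''⟩ : ∃ k'' : P ⟶ O₀⟦(2 : ℤ)⟧, k' = c ≫ k'' :=
    Triangle.yoneda_exact₂ _ h₃ k' hv
  refine ⟨k'' ≫ (shiftFunctor T (2 : ℤ)).map (a ≫ c), ?_⟩
  rw [l.cyc (a ≫ c) k'', Category.assoc, ← hk'', ← hk']
  exact hk

end Pool.Agent.H63.KA
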