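import Pool.Agent.H63.KA.Nondeg
import Pool.Agent.H63.KA.Kos

/-!
# KA-8 Point (the axiom `point` from Koszul objects and point-like objects)

Let `l`, `n`, `j` with `l.tr ((O n)⟦j⟧) k ≠ 0`. Put `l' := shiftTrace l j`, so `l'` is not zero on
`O n` (`shiftTrace_ne`). By `HasKoszul`, `trace_kos` and `trace_sum` there is a point-like `Y` with
`l'.tr Y k₀ ≠ 0`. Let `P := Y⟦j⟧`.
* (N) for `P` and `l`: let `p : Y⟦j⟧ ⟶ N⟦2⟧` with `l.tr (Y⟦j⟧) (p ≫ h⟦2⟧') = 0` for all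
`h : N ⟶ Y⟦j⟧`. Put `N' := N⟦-j⟧`, `N'⟦j⟧ ≅ N`. WLOG `N = N'⟦j⟧` (transport along the isomorphism).
`p ≫ (shiftFunctorComm).inv : Y⟦j⟧ ⟶ N'⟦2⟧⟦j⟧` is `q⟦j⟧'` for a `q : Y ⟶ N'⟦2⟧` (full). For
`h' : N' ⟶ Y`: `l'.tr Y (q ≫ h'⟦2⟧') = l.tr (Y⟦j⟧) ((q ≫ h'⟦2⟧')⟦j⟧' ≫ comm) =
l.tr (Y⟦j⟧) (p ≫ (h'⟦j⟧')⟦2⟧') = 0` (naturality of `shiftFunctorComm`), so `q = 0` by `nondeg`.
* `chi (Y⟦j⟧) (M⟦j⟧) = chi Y M`: `Hom(Y⟦j⟧, M⟦j⟧⟦i⟧) ≃ₗ Hom(Y⟦j⟧, M⟦i⟧⟦j⟧) ≃ₗ Hom(Y, M⟦i⟧)`.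
-/

namespace Pool.Agent.H63.KA

open CategoryTheory Limits Pretriangulated

universe v u

variable {T : Type u} [Category.{v} T] [Preadditive T] [Linear ℂ T] [HasZeroObject T]
    [HasShift T ℤ] [∀ n : ℤ, (shiftFunctor T n).Additive] [∀ n : ℤ, (shiftFunctor T n).Linear ℂ]
    [Pretriangulated T] [IsTriangulated T]
    {O : ℤ → T} {R : T → ℤ → ℤ → Prop}

omit [HasZeroObject T] [Pretriangulated T] [IsTriangulated T] in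
/-- The Euler form is invariant under a simultaneous shift. -/
theorem chi_shift_shift (Y M : T) (j : ℤ) : chi (Y⟦j⟧) (M⟦j⟧) = chi Y M := by
  unfold chi
  refine finsum_congr fun i => ?_
  congr 2
  have e1 : (Y ⟶ M⟦i⟧) ≃ₗ[ℂ] (Y⟦j⟧ ⟶ M⟦i⟧⟦j⟧) :=
    LinearEquiv.ofBijective ((shiftFunctor T j).mapLinearMap ℂ)
      ⟨(shiftFunctor T j).map_injective, (shiftFunctor T j).map_surjective⟩
  have e2 : (Y⟦j⟧ ⟶ M⟦i⟧⟦j⟧) ≃ₗ[ℂ] (Y⟦j⟧ ⟶ M⟦j⟧⟦i⟧) :=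
    Linear.homCongr ℂ (Iso.refl _) ((shiftFunctorComm T i j).app M)
  exact (e1.trans e2).symm.finrank_eq

theorem surfaceAx_of (hT : SurfaceBase O R) (hO : HasKoszul O) : SurfaceAx O R := by
  refine { toSurfaceBase := hT, point := ?_ }
  intro l n j hk
  obtain ⟨k, hk1⟩ := shiftTrace_ne l j (O n) hk
  obtain ⟨O₁, O₂, D₀, D₁, P, u, a, b, u', a', b', v, c, d, r, Y, h₁, h₂, h₃, z₁, z₂, ⟨e⟩, hY⟩ :=
    hO.kos n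
  obtain ⟨k2, hk2⟩ := trace_kos (shiftTrace l j) u a b u' a' b' v c d h₁ h₂ h₃ z₁ z₂ ⟨k, hk1⟩
  obtain ⟨i, k₀, hk₀⟩ := trace_sum (shiftTrace l j) e ⟨k2, hk2⟩
  refine ⟨(Y i)⟦j⟧, ?_, ?_, ?_⟩
  · intro N p hp
    let e' : N⟦-j⟧⟦j⟧ ≅ N := shiftNegShift N j
    obtain ⟨q, hq⟩ := (shiftFunctor T j).map_surjective
      (p ≫ e'.inv⟦(2 : ℤ)⟧' ≫ (shiftFunctorComm T (2 : ℤ) j).inv.app (N⟦-j⟧))
    have hq0 : q = 0 := by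
      refine nondeg hT (hY i) (shiftTrace l j) k₀ hk₀ (N⟦-j⟧) q ?_
      intro h
      have hnat := (shiftFunctorComm T (2 : ℤ) j).hom.naturality h
      have h0 := hp (e'.inv ≫ h⟦j⟧')
      show l.tr ((Y i)⟦j⟧) ((q ≫ h⟦(2 : ℤ)⟧')⟦j⟧' ≫
        (shiftFunctorComm T (2 : ℤ) j).hom.app (Y i)) = 0
      rw [← h0]
      congr 1
      rw [Functor.map_comp, Category.assoc]
      have hnat' : (h⟦(2 : ℤ)⟧')⟦j⟧' ≫ (shiftFunctorComm T (2 : ℤ) j).hom.app (Y i) =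
          (shiftFunctorComm T (2 : ℤ) j).hom.app (N⟦-j⟧) ≫ (h⟦j⟧')⟦(2 : ℤ)⟧' := hnat
      rw [hnat', hq]
      simp only [Category.assoc, Iso.inv_hom_id_app_assoc, Functor.map_comp]
    rw [hq0, Functor.map_zero] at hq
    have h3 : p ≫ e'.inv⟦(2 : ℤ)⟧' = 0 := by
      have : (p ≫ e'.inv⟦(2 : ℤ)⟧') ≫ (shiftFunctorComm T (2 : ℤ) j).inv.app (N⟦-j⟧) = 0 := by
        rw [Category.assoc, ← hq]
      have h4 := congrArg (fun f => f ≫ (shiftFunctorComm T (2 : ℤ) j).hom.app (N⟦-j⟧)) this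
      simpa using h4
    have h5 := congrArg (fun f => f ≫ e'.hom⟦(2 : ℤ)⟧') h3
    simpa [← Functor.map_comp] using h5
  · rw [chi_shift_shift]
    exact (hY i).chi_self
  · obtain ⟨M, hM⟩ := (hY i).chi_ne
    exact ⟨M⟦j⟧, by rw [chi_shift_shift]; exact hM⟩

end Pool.Agent.H63.KA
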