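import Pool.Agent.H63.KA.Defs

/-!
# KA-1 Approx (Bondal - Van den Bergh representability for a fully faithful exact functor)

`Φ : K ⥤ T` fully faithful exact, `K` idempotent complete with a strong generator
(`G : ι → K` finite family, `K = triangEnvelopeIter (ofObj G) n`), `Hom(Φ X, M[i])` finite and
zero for `|i|` large for all `X : K`, `M : T`.  Then every `M : T` has a universal map
`ξ : Φ A → M`.

Proof. Let `P := Φ.essImage`; it is a triangulated subcategory (Mathlib: instance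
`F.essImage.IsTriangulated` for `F` full and triangulated, at the end of
Mathlib/CategoryTheory/Triangulated/Subcategory.lean), and `P.trW` (maps whose cone is in `P`) is
multiplicative.  Call `γ : M ⟶ M'` a ghost if `P.trW γ`; it kills `X : K` if `Φ.map`-free: every
`f : Φ.obj X ⟶ M` has `f ≫ γ = 0`.

(a) One step. For every `M : T` there is `γ : M ⟶ M'` with `P.trW γ` that kills all
`(G i)⟦j⟧`, `i : ι`, `j : ℤ`. Indeed the `ℂ`-spaces `Hom(Φ((G i)⟦j⟧), M) ≅ Hom(Φ (G i), M⟦-j⟧)`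
are finite dimensional and zero for all but finitely many `(i, j)`; let `X = ⨁ (G i)⟦j⟧` over a
finite index set (for every `(i, j)` with `|j| ≤ B` a finite spanning set of the Hom space,
finite products of `K` are biproducts), `β : Φ X ⟶ M` the sum of the maps, `γ` = the map to the
cone of `β`: every map `Φ((G i)⟦j⟧) ⟶ M` factors through `β`, and `β ≫ γ = 0`.
(b) The objects `X : K` killed by a fixed `γ` are closed under binary products and retracts, so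
the `γ` of (a) kills all of `(ofObj G).triangEnvelopeIter 0`.
(c) Induction on `n`: for every `M` there is `γ : M ⟶ M'` in `P.trW` that kills all of
`triangEnvelopeIter n`. Step: `triangEnvelopeIter_succ` : `X` is a retract of `Y` with a triangle
`Y' ⟶ Y ⟶ Y''`, `Y'` of level `0`, `Y''` of level `n`. Let `γ₁ : M ⟶ M₁` be as in (a), and
`γ₂ : M₁ ⟶ M₂` as in the induction hypothesis. For `f : Φ Y ⟶ M` the restriction of `f ≫ γ₁` to
`Φ Y'` is zero, so `f ≫ γ₁` factors through `Φ Y''` (`Triangle.yoneda_exact₂` for the image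
triangle) and `γ₂` kills it. `P.trW` is closed under composition. Retracts as in (b).
(d) So for every `M` there is `γ : M ⟶ M'` in `P.trW` with `f ≫ γ = 0` for all `f : Φ X ⟶ M`,
`X : K`. Take such `γ` for `M`, and `γ'` for `M'`. Triangles `F ⟶(ξ) M ⟶(γ) M' ⟶(δ) F[1]` and
`F₂ ⟶(ξ₂) M ⟶(γ ≫ γ') M''`, with `F, F₂` in `P`, and a map `ι : F ⟶ F₂` with `ι ≫ ξ₂ = ξ` which
together with `𝟙 M`, `γ'` is a morphism of triangles
(`complete_distinguished_triangle_morphism₁`).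
(e) If `f : Φ Y ⟶ F` has `f ≫ ξ = 0` then `f ≫ ι = 0`: `f` comes from `g : Φ Y ⟶ M'[-1]`
through the connecting map, hence `f ≫ ι` comes from `g ≫ γ'[-1]`, and `γ'` kills `Φ(Y[1])`.
(Easier: work with `f⟦1⟧'`, use `Triangle.coyoneda_exact₃`/rotation and `Φ.commShiftIso 1`.)
(f) `ξ₂ ≫ γ = 0` because `F₂` is in `P`, so `ξ₂ = φ ≫ ξ` with `φ : F₂ ⟶ F`. Put `e := ι ≫ φ`, so
`e ≫ ξ = ξ`. Then `(e ≫ e - e) ≫ ξ = 0`, so `(e ≫ e - e) ≫ ι = 0` (apply (e) with `F = Φ A`), so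
`e ≫ e ≫ e = e ≫ e`; `p := e ≫ e` is idempotent, `p ≫ ξ = ξ`, and `f ≫ ξ = 0` implies
`f ≫ p = 0`.
(g) `F ≅ Φ A`; `p` comes from an idempotent of `A` (fully faithful), which splits:
`i : A' ⟶ A`, `r : A ⟶ A'`, `i ≫ r = 𝟙`, `r ≫ i = p`. Then `ξ' := Φ.map i ≫ ξ` works:
surjective: `g : Φ Y ⟶ M` has `g ≫ γ = 0`, so `g = f ≫ ξ`, `f = Φ.map f₀`, `h := f₀ ≫ r`.
injective: `Φ.map h ≫ ξ' = 0` gives `Φ.map (h ≫ i) ≫ p = 0`, so `h ≫ i ≫ r ≫ i = h ≫ i = 0`,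
`h = h ≫ i ≫ r = 0`.
-/

namespace Pool.Agent.H63.KA

open CategoryTheory Limits Pretriangulated ZeroObject

universe v u v' u'

/-- `ξ : Φ A ⟶ M` is universal: every map `Φ X ⟶ M` is `Φ.map g ≫ ξ` for a unique `g`. -/
def IsUniv {K : Type u} [Category.{v} K] {T : Type u'} [Category.{v'} T] (Φ : K ⥤ T) {A : K}
    {M : T} (ξ : Φ.obj A ⟶ M) : Prop :=
  ∀ X : K, Function.Bijective (fun g : X ⟶ A => Φ.map g ≫ ξ)

/-- `γ` kills all maps from `Φ X`. -/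
def kills {K : Type u} [Category.{v} K] {T : Type u'} [Category.{v'} T] [Preadditive T]
    (Φ : K ⥤ T) {M M' : T} (γ : M ⟶ M') : ObjectProperty K :=
  fun X => ∀ f : Φ.obj X ⟶ M, f ≫ γ = 0

section kills

variable {K : Type u} [Category.{v} K] [Preadditive K] [HasZeroObject K]
    {T : Type u'} [Category.{v'} T] [Preadditive T]
    (Φ : K ⥤ T) {M M' : T} (γ : M ⟶ M')

theorem kills_retract {X Y : K} (r : Retract X Y) (h : kills Φ γ Y) : kills Φ γ X := by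
  intro f
  have h1 : Φ.map r.i ≫ Φ.map r.r = 𝟙 _ := by
    rw [← Functor.map_comp, r.retract, CategoryTheory.Functor.map_id]
  have h2 := h (Φ.map r.r ≫ f)
  calc f ≫ γ = (Φ.map r.i ≫ Φ.map r.r) ≫ f ≫ γ := by rw [h1, Category.id_comp]
    _ = Φ.map r.i ≫ (Φ.map r.r ≫ f) ≫ γ := by simp only [Category.assoc]
    _ = 0 := by rw [h2, comp_zero]

instance : (kills Φ γ).IsStableUnderRetracts where
  of_retract r h := kills_retract Φ γ r h

instance : (kills Φ γ).IsClosedUnderIsomorphisms where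
  of_iso e h := kills_retract Φ γ (Retract.ofIso e.symm) h

theorem kills_zero [Φ.Additive] {X : K} (hX : IsZero X) : kills Φ γ X := by
  intro f
  have : IsZero (Φ.obj X) := Φ.map_isZero hX
  rw [this.eq_of_src f 0, zero_comp]

instance [Φ.Additive] : (kills Φ γ).ContainsZero where
  exists_zero := ⟨0, isZero_zero K, kills_zero Φ γ (isZero_zero K)⟩

theorem kills_biprod [Φ.Additive] [HasBinaryBiproducts K] {X Y : K} (hX : kills Φ γ X)
    (hY : kills Φ γ Y) : kills Φ γ (X ⊞ Y) := by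
  intro f
  have h1 : 𝟙 (Φ.obj (X ⊞ Y)) = Φ.map biprod.fst ≫ Φ.map biprod.inl +
      Φ.map biprod.snd ≫ Φ.map biprod.inr := by
    rw [← Functor.map_comp, ← Functor.map_comp, ← Functor.map_add, biprod.total, CategoryTheory.Functor.map_id]
  have h2 := hX (Φ.map biprod.inl ≫ f)
  have h3 := hY (Φ.map biprod.inr ≫ f)
  calc f ≫ γ = 𝟙 (Φ.obj (X ⊞ Y)) ≫ f ≫ γ := by rw [Category.id_comp]
    _ = Φ.map biprod.fst ≫ (Φ.map biprod.inl ≫ f) ≫ γ +
        Φ.map biprod.snd ≫ (Φ.map biprod.inr ≫ f) ≫ γ := by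
      rw [h1]; simp only [Preadditive.add_comp, Category.assoc]
    _ = 0 := by rw [h2, h3]; simp

instance [Φ.Additive] [HasBinaryBiproducts K] : (kills Φ γ).IsClosedUnderBinaryProducts where
  limitsOfShape_le := by
    rintro X ⟨p⟩
    refine (kills Φ γ).prop_of_iso ?_ (kills_biprod Φ γ
      (p.prop_diag_obj (.mk .left)) (p.prop_diag_obj (.mk .right)))
    exact (biprod.isoProd _ _) ≪≫ IsLimit.conePointUniqueUpToIso (prodIsProd _ _)
      ((IsLimit.postcomposeHomEquiv (diagramIsoPair p.diag) _).2 p.isLimit)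

end kills

section fac

variable {K : Type u} [Category.{v} K] [Preadditive K] [HasZeroObject K] [HasBinaryBiproducts K]
    {T : Type u'} [Category.{v'} T] [Preadditive T] [Linear ℂ T]
    (Φ : K ⥤ T) [Φ.Additive] {M : T}

/-- joining two maps -/
theorem join {X₁ X₂ : K} (β₁ : Φ.obj X₁ ⟶ M) (β₂ : Φ.obj X₂ ⟶ M) :
    ∃ (X : K) (β : Φ.obj X ⟶ M), (∃ g, β₁ = g ≫ β) ∧ (∃ g, β₂ = g ≫ β) := by
  refine ⟨X₁ ⊞ X₂, Φ.map biprod.fst ≫ β₁ + Φ.map biprod.snd ≫ β₂,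
    ⟨Φ.map biprod.inl, ?_⟩, ⟨Φ.map biprod.inr, ?_⟩⟩
  · rw [Preadditive.comp_add, ← Category.assoc, ← Category.assoc, ← Functor.map_comp,
      ← Functor.map_comp, biprod.inl_fst, biprod.inl_snd, CategoryTheory.Functor.map_id, Functor.map_zero]
    simp
  · rw [Preadditive.comp_add, ← Category.assoc, ← Category.assoc, ← Functor.map_comp,
      ← Functor.map_comp, biprod.inr_fst, biprod.inr_snd, CategoryTheory.Functor.map_id, Functor.map_zero]
    simp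

/-- finitely many maps -/
theorem join_finset {Y : K} (s : Finset (Φ.obj Y ⟶ M)) :
    ∃ (X : K) (β : Φ.obj X ⟶ M), ∀ f ∈ s, ∃ g, f = g ≫ β := by
  classical
  induction s using Finset.induction_on with
  | empty => exact ⟨0, 0, by simp⟩
  | insert a s ha ih =>
    obtain ⟨X, β, h⟩ := ih
    obtain ⟨X', β', ⟨g₁, hg₁⟩, ⟨g₂, hg₂⟩⟩ := join Φ a β
    refine ⟨X', β', ?_⟩
    intro f hf
    rcases Finset.mem_insert.1 hf with rfl | hf
    · exact ⟨g₁, hg₁⟩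
    · obtain ⟨g, rfl⟩ := h f hf
      exact ⟨g ≫ g₂, by rw [Category.assoc, ← hg₂]⟩

/-- one object -/
theorem join_obj (Y : K) (hfin : Module.Finite ℂ (Φ.obj Y ⟶ M)) :
    ∃ (X : K) (β : Φ.obj X ⟶ M), ∀ f : Φ.obj Y ⟶ M, ∃ g, f = g ≫ β := by
  obtain ⟨s, hs⟩ := hfin.fg_top
  obtain ⟨X, β, h⟩ := join_finset Φ s
  refine ⟨X, β, fun f => ?_⟩
  have h1 : (⊤ : Submodule ℂ (Φ.obj Y ⟶ M)) ≤ LinearMap.range (Linear.rightComp ℂ (Φ.obj Y) β) := by
    rw [← hs, Submodule.span_le]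
    intro f hf
    obtain ⟨g, hg⟩ := h f hf
    exact ⟨g, hg.symm⟩
  obtain ⟨g, hg⟩ := h1 (Submodule.mem_top (x := f))
  exact ⟨g, hg.symm⟩

/-- finitely many objects -/
theorem join_objs {α : Type*} (Y : α → K) (s : Finset α)
    (hfin : ∀ a, Module.Finite ℂ (Φ.obj (Y a) ⟶ M)) :
    ∃ (X : K) (β : Φ.obj X ⟶ M), ∀ a ∈ s, ∀ f : Φ.obj (Y a) ⟶ M, ∃ g, f = g ≫ β := by
  classical
  induction s using Finset.induction_on with
  | empty => exact ⟨0, 0, by simp⟩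
  | insert a s ha ih =>
    obtain ⟨X, β, h⟩ := ih
    obtain ⟨X₁, β₁, h₁⟩ := join_obj Φ (Y a) (hfin a)
    obtain ⟨X', β', ⟨g₁, hg₁⟩, ⟨g₂, hg₂⟩⟩ := join Φ β₁ β
    refine ⟨X', β', ?_⟩
    intro b hb f
    rcases Finset.mem_insert.1 hb with rfl | hb
    · obtain ⟨g, rfl⟩ := h₁ f
      exact ⟨g ≫ g₁, by rw [Category.assoc, ← hg₁]⟩
    · obtain ⟨g, rfl⟩ := h b hb f
      exact ⟨g ≫ g₂, by rw [Category.assoc, ← hg₂]⟩

end fac

section main

variable {K : Type u} [Category.{v} K] [Preadditive K] [Linear ℂ K] [HasZeroObject K] [HasShift K ℤ]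
    [∀ n : ℤ, (shiftFunctor K n).Additive] [Pretriangulated K] [IsTriangulated K]
    {T : Type u'} [Category.{v'} T] [Preadditive T] [Linear ℂ T] [HasZeroObject T] [HasShift T ℤ]
    [∀ n : ℤ, (shiftFunctor T n).Additive] [Pretriangulated T] [IsTriangulated T]
    (Φ : K ⥤ T) [Φ.CommShift ℤ] [Φ.IsTriangulated] [Φ.Full] [Φ.Faithful]

/-- `Hom(X, Y)` is finite -/
theorem finite_hom (hfin : ∀ M N : T, ExtFin M N) (X Y : T) : Module.Finite ℂ (X ⟶ Y) := by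
  have h1 := (hfin X Y).fin 0
  have e : Y⟦(0 : ℤ)⟧ ≅ Y := (shiftFunctorZero T ℤ).app Y
  refine Module.Finite.of_surjective (Linear.rightComp ℂ X e.hom) ?_
  intro f
  exact ⟨f ≫ e.inv, by simp [Linear.rightComp]⟩

/-- vanishing for large shifts -/
theorem vanish_large (hfin : ∀ M N : T, ExtFin M N) (G : K) (M : T) :
    ∃ B : ℕ, ∀ j : ℤ, (B : ℤ) ≤ |j| → ∀ f : Φ.obj (G⟦j⟧) ⟶ M, f = 0 := by
  obtain ⟨B, hB⟩ := (hfin (Φ.obj G) M).bdd
  refine ⟨B, fun j hj f => ?_⟩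
  have h0 : (B : ℤ) ≤ |(-j)| := by rwa [abs_neg]
  let c := (Φ.commShiftIso j).app G
  let f' : (Φ.obj G)⟦j⟧ ⟶ M := c.inv ≫ f
  have h1 : (shiftFunctorCompIsoId T j (-j) (by simp)).inv.app (Φ.obj G) ≫ f'⟦-j⟧' = 0 :=
    hB (-j) h0 _
  have h2 : f'⟦-j⟧' = 0 := by
    rw [← cancel_epi ((shiftFunctorCompIsoId T j (-j) (by simp)).inv.app (Φ.obj G)), h1, comp_zero]
  have h3 : f' = 0 := by
    apply (shiftFunctor T (-j)).map_injective
    rw [h2, Functor.map_zero]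
  have h4 : c.inv ≫ f = 0 := h3
  rw [← cancel_epi c.inv, h4, comp_zero]

/-- (a) one step -/
theorem one_step (hfin : ∀ M N : T, ExtFin M N) {ι : Type} [Finite ι] (G : ι → K) (M : T) :
    ∃ (M' : T) (γ : M ⟶ M'), Φ.essImage.trW γ ∧
      ∀ (i : ι) (j : ℤ), kills Φ γ ((G i)⟦j⟧) := by
  classical
  haveI := Fintype.ofFinite ι
  choose B hB using fun i : ι => vanish_large Φ hfin (G i) M
  let N : ℕ := Finset.univ.sup B
  obtain ⟨X, β, h⟩ := join_objs (M := M) Φ (fun a : ι × ℤ => (G a.1)⟦a.2⟧)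
    (Finset.univ ×ˢ Finset.Icc (-(N : ℤ)) N) (fun a => finite_hom hfin _ _)
  obtain ⟨M', γ, δ, hT⟩ := distinguished_cocone_triangle β
  refine ⟨M', γ, ?_, ?_⟩
  · exact ObjectProperty.trW.mk' Φ.essImage hT (Functor.obj_mem_essImage Φ X)
  · intro i j f
    by_cases hj : |j| ≤ (N : ℤ)
    · have hmem : (i, j) ∈ (Finset.univ : Finset ι) ×ˢ Finset.Icc (-(N : ℤ)) N := by
        rw [Finset.mem_product, Finset.mem_Icc]
        exact ⟨Finset.mem_univ _, abs_le.1 hj⟩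
      obtain ⟨g, rfl⟩ := h (i, j) hmem f
      have h0 : β ≫ γ = 0 := comp_distTriang_mor_zero₁₂ _ hT
      rw [Category.assoc, h0, comp_zero]
    · have h1 : (B i : ℤ) ≤ |j| := by
        have : B i ≤ N := Finset.le_sup (f := B) (Finset.mem_univ i)
        have : (B i : ℤ) ≤ N := by exact_mod_cast this
        omega
      rw [hB i j h1 f, zero_comp]

/-- (b) level zero -/
theorem kills_level_zero {M M' : T} (γ : M ⟶ M') {ι : Type} (G : ι → K)
    (h : ∀ (i : ι) (j : ℤ), kills Φ γ ((G i)⟦j⟧)) :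
    ((ObjectProperty.ofObj G).shiftClosure ℤ).binaryProductsClosure.retractClosure ≤
      kills Φ γ := by
  rw [ObjectProperty.retractClosure_le_iff, ObjectProperty.binaryProductsClosure_le_iff]
  rintro X ⟨Y, a, e, ⟨i⟩⟩
  exact (kills Φ γ).prop_of_iso e.symm (h i a)

/-- (c) every level -/
theorem level (hfin : ∀ M N : T, ExtFin M N) {ι : Type} [Finite ι] (G : ι → K) (n : ℕ) :
    ∀ M : T, ∃ (M' : T) (γ : M ⟶ M'), Φ.essImage.trW γ ∧
      (ObjectProperty.ofObj G).triangEnvelopeIter n ≤ kills Φ γ := by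
  induction n with
  | zero =>
    intro M
    obtain ⟨M', γ, h1, h2⟩ := one_step Φ hfin G M
    refine ⟨M', γ, h1, ?_⟩
    rw [ObjectProperty.triangEnvelopeIter_zero]
    exact kills_level_zero Φ γ G h2
  | succ n ih =>
    intro M
    obtain ⟨M₁, γ₁, h1, h2⟩ := one_step Φ hfin G M
    obtain ⟨M₂, γ₂, h3, h4⟩ := ih M₁
    refine ⟨M₂, γ₁ ≫ γ₂, MorphismProperty.comp_mem _ _ _ h1 h3, ?_⟩
    rw [ObjectProperty.triangEnvelopeIter_succ, ObjectProperty.retractClosure_le_iff]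
    rintro Y ⟨Y', Y'', a, b, c, hT, hY', hY''⟩ f
    have hT' := Φ.map_distinguished _ hT
    have h5 : Φ.map a ≫ f ≫ γ₁ = 0 := by
      have := kills_level_zero Φ γ₁ G h2 Y' hY' (Φ.map a ≫ f)
      rwa [Category.assoc] at this
    obtain ⟨g, hg⟩ : ∃ g : Φ.obj Y'' ⟶ M₁, f ≫ γ₁ = Φ.map b ≫ g :=
      Triangle.yoneda_exact₂ _ hT' (f ≫ γ₁) h5
    have h6 : g ≫ γ₂ = 0 := h4 Y'' hY'' g
    rw [← Category.assoc, hg, Category.assoc, h6, comp_zero]

/-- (d)-(f) -/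
theorem exists_idem {M M' M'' : T} (γ : M ⟶ M') (γ' : M' ⟶ M'') (h : Φ.essImage.trW γ)
    (h' : Φ.essImage.trW γ') (hk : ∀ X, kills Φ γ X) (hk' : ∀ X, kills Φ γ' X) :
    ∃ (A : K) (ξ : Φ.obj A ⟶ M) (p : Φ.obj A ⟶ Φ.obj A), p ≫ p = p ∧ p ≫ ξ = ξ ∧
      (∀ (Y : K) (f : Φ.obj Y ⟶ Φ.obj A), f ≫ ξ = 0 → f ≫ p = 0) ∧
      (∀ (Y : K) (g : Φ.obj Y ⟶ M), ∃ f : Φ.obj Y ⟶ Φ.obj A, g = f ≫ ξ) := by
  have hc : Φ.essImage.trW (γ ≫ γ') := MorphismProperty.comp_mem _ _ _ h h'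
  rw [ObjectProperty.trW_iff'] at h hc
  obtain ⟨F, ξ, δ, hT, hF⟩ := h
  obtain ⟨F₂, ξ₂, δ₂, hT₂, hF₂⟩ := hc
  obtain ⟨A, ⟨i⟩⟩ := hF
  obtain ⟨A₂, ⟨i₂⟩⟩ := hF₂
  obtain ⟨ι, hι₁, hι₂⟩ : ∃ ι : F ⟶ F₂, ξ ≫ 𝟙 M = ι ≫ ξ₂ ∧ δ ≫ ι⟦(1 : ℤ)⟧' = γ' ≫ δ₂ :=
    complete_distinguished_triangle_morphism₁ _ _ hT hT₂ (𝟙 M) γ' (Category.id_comp _).symm
  rw [Category.comp_id] at hι₁
  -- (e)
  have he : ∀ (Y : K) (f : Φ.obj Y ⟶ F), f ≫ ξ = 0 → f ≫ ι = 0 := by
    intro Y f hf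
    obtain ⟨g, hg⟩ : ∃ g : (Φ.obj Y)⟦(1 : ℤ)⟧ ⟶ M', f⟦(1 : ℤ)⟧' = g ≫ δ :=
      Triangle.coyoneda_exact₁ _ hT (f⟦(1 : ℤ)⟧') (by
      change f⟦(1 : ℤ)⟧' ≫ ξ⟦(1 : ℤ)⟧' = 0
      rw [← Functor.map_comp, hf, Functor.map_zero])
    have h1 : g ≫ γ' = 0 := by
      have := hk' (Y⟦(1 : ℤ)⟧) ((Φ.commShiftIso (1 : ℤ)).hom.app Y ≫ g)
      rw [Category.assoc] at this
      rw [← cancel_epi ((Φ.commShiftIso (1 : ℤ)).hom.app Y), comp_zero]
      exact this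
    apply (shiftFunctor T (1 : ℤ)).map_injective
    rw [Functor.map_comp, hg, Category.assoc, hι₂, ← Category.assoc, h1, zero_comp,
      Functor.map_zero]
  -- (f)
  have h2 : ξ₂ ≫ γ = 0 := by
    have := hk A₂ (i₂.hom ≫ ξ₂)
    rw [Category.assoc] at this
    rw [← cancel_epi i₂.hom, this, comp_zero]
  obtain ⟨φ, hφ⟩ : ∃ φ : F₂ ⟶ F, ξ₂ = φ ≫ ξ := Triangle.coyoneda_exact₂ _ hT ξ₂ h2
  set e : F ⟶ F := ι ≫ φ with hedef
  have h3 : e ≫ ξ = ξ := by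
    rw [hedef, Category.assoc, ← hφ, ← hι₁]
  have h4 : (e ≫ e - e) ≫ ξ = 0 := by
    rw [Preadditive.sub_comp, Category.assoc, h3, h3, sub_self]
  have h5 : (e ≫ e - e) ≫ ι = 0 := by
    have := he A (i.hom ≫ (e ≫ e - e)) (by rw [Category.assoc, h4, comp_zero])
    rw [Category.assoc] at this
    rw [← cancel_epi i.hom, this, comp_zero]
  have h6 : e ≫ e ≫ e = e ≫ e := by
    have : (e ≫ e - e) ≫ e = 0 := by
      rw [hedef, ← Category.assoc (_ - _), ← hedef, h5, zero_comp]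
    rw [Preadditive.sub_comp, Category.assoc] at this
    exact sub_eq_zero.1 this
  refine ⟨A, i.hom ≫ ξ, i.hom ≫ (e ≫ e) ≫ i.inv, ?_, ?_, ?_, ?_⟩
  · simp only [Category.assoc, Iso.inv_hom_id_assoc]
    rw [reassoc_of% h6, reassoc_of% h6]
  · simp only [Category.assoc, Iso.inv_hom_id_assoc, h3]
  · intro Y f hf
    have h7 : (f ≫ i.hom) ≫ ι = 0 := he Y (f ≫ i.hom) (by rw [Category.assoc]; exact hf)
    have h8 : (f ≫ i.hom) ≫ e = 0 := by
      rw [hedef, ← Category.assoc, h7, zero_comp]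
    have h9 : f ≫ i.hom ≫ (e ≫ e) ≫ i.inv = ((f ≫ i.hom) ≫ e) ≫ e ≫ i.inv := by
      simp only [Category.assoc]
    rw [h9, h8, zero_comp]
  · intro Y g
    obtain ⟨f, hf⟩ : ∃ f : Φ.obj Y ⟶ F, g = f ≫ ξ := Triangle.coyoneda_exact₂ _ hT g (hk Y g)
    exact ⟨f ≫ i.inv, by simpa using hf⟩

end main

theorem exists_univ
    {K : Type u} [Category.{v} K] [Preadditive K] [Linear ℂ K] [HasZeroObject K] [HasShift K ℤ]
    [∀ n : ℤ, (shiftFunctor K n).Additive] [Pretriangulated K] [IsTriangulated K]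
    {T : Type u'} [Category.{v'} T] [Preadditive T] [Linear ℂ T] [HasZeroObject T] [HasShift T ℤ]
    [∀ n : ℤ, (shiftFunctor T n).Additive] [Pretriangulated T] [IsTriangulated T]
    (Φ : K ⥤ T) [Φ.CommShift ℤ] [Φ.IsTriangulated] [Φ.Full] [Φ.Faithful]
    {ι : Type} [Finite ι] (G : ι → K) (n : ℕ)
    (hG : (ObjectProperty.ofObj G).triangEnvelopeIter n = ⊤) (hK : IsIdempotentComplete K)
    (hfin : ∀ M N : T, ExtFin M N) (M : T) :
    ∃ (A : K) (ξ : Φ.obj A ⟶ M), IsUniv Φ ξ := by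
  obtain ⟨M', γ, h, hk⟩ := level Φ hfin G n M
  obtain ⟨M'', γ', h', hk'⟩ := level Φ hfin G n M'
  rw [hG] at hk hk'
  obtain ⟨A, ξ, p, hpp, hpξ, hker, hsurj⟩ := exists_idem Φ γ γ' h h'
    (fun X => hk X trivial) (fun X => hk' X trivial)
  obtain ⟨q, hq⟩ := Φ.map_surjective p
  have hqq : q ≫ q = q := by
    apply Φ.map_injective
    rw [Functor.map_comp, hq, hpp]
  obtain ⟨A', i, r, hir, hri⟩ := hK.idempotents_split A q hqq
  refine ⟨A', Φ.map i ≫ ξ, fun Y => ⟨?_, ?_⟩⟩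
  · intro h₁ h₂ h12
    dsimp only at h12
    have h3 : Φ.map ((h₁ - h₂) ≫ i) ≫ ξ = 0 := by
      rw [Functor.map_comp, Functor.map_sub, Category.assoc, Preadditive.sub_comp, h12, sub_self]
    have h4 := hker _ _ h3
    have h5 : ((h₁ - h₂) ≫ i) ≫ q = 0 := by
      apply Φ.map_injective
      rw [Functor.map_comp, hq, h4, Functor.map_zero]
    have h6 : i ≫ q = i := by rw [← hri, ← Category.assoc, hir, Category.id_comp]
    rw [Category.assoc, h6] at h5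
    have h7 : h₁ - h₂ = ((h₁ - h₂) ≫ i) ≫ r := by rw [Category.assoc, hir, Category.comp_id]
    rw [h5, zero_comp] at h7
    exact sub_eq_zero.1 h7
  · intro g
    obtain ⟨f, hf⟩ := hsurj Y g
    obtain ⟨f₀, rfl⟩ := Φ.map_surjective f
    refine ⟨f₀ ≫ r, ?_⟩
    dsimp only
    rw [Functor.map_comp, Category.assoc, ← Category.assoc (Φ.map r), ← Functor.map_comp, hri, hq,
      hpξ, ← hf]

end Pool.Agent.H63.KA
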