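import Pool.Agent.H63.KA.Defs

/-!
# KA-6 Gen (the line bundles generate `D^b(coh S)` as a thick subcategory)

Proof. Let `M`, `R M a b`. (1) Claim: for every `r : ℕ` there are `M'`, `c ≤ b - r` or simply `d`
with `d ≤ b - r`, `R M' c d`, and a map `M ⟶ M'` in `G.trW`. Induction on `r`: let `N`, `R N c d`,
`d ≤ b - r` be the current object. If `d < c` then `N` is a zero object (`zero_of`), and the current
map already shows that `M` is in `G` (its cone is in `G` and `N` is zero), so we are done with the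
whole theorem (or: do a case distinction at the start of the step). If `c ≤ d`: by `step` there is
a triangle `E ⟶ N ⟶ N' ⟶ E[1]` with `R N' (min c (d - 1)) (d - 1)` and `E = ⨁ (O n)⟦-d⟧`,
`n ≥ n₁`, which is in `G` (a triangulated property is closed under finite biproducts and shifts),
so `N ⟶ N'` is in `G.trW`; `G.trW` is closed under composition (`IsMultiplicative`).
(2) Let `D` be as in `homdim`; take `r` with `b - r + D ≤ a`: the map `f : M ⟶ M'` is zero (`R M' c d`, `d + D ≤ a`). Its cone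
`Z` is in `G` (`ObjectProperty.trW_iff`): triangle `M ⟶(0) M' ⟶ Z ⟶ M[1]`; so `Z ⟶ M[1]` is a split
epimorphism (`𝟙 (M[1])` composed with `0⟦1⟧'` is zero, `Triangle.coyoneda_exact₃`), so `M[1]` is a
retract of `Z`, in `G` by `IsStableUnderRetracts`, and then `M` is in `G` by shift.
-/

namespace Pool.Agent.H63.KA

open CategoryTheory Limits Pretriangulated

universe v u

/-- the object to be approximated is reached by maps with cone in `G` and target as low as we
like -/
theorem go_down {T : Type u} [Category.{v} T] [Preadditive T] [Linear ℂ T] [HasZeroObject T]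
    [HasShift T ℤ] [∀ n : ℤ, (shiftFunctor T n).Additive] [Pretriangulated T] [IsTriangulated T]
    {O : ℤ → T} {R : T → ℤ → ℤ → Prop} (hT : SurfaceBase O R) (G : ObjectProperty T)
    [G.IsTriangulated] [G.IsStableUnderRetracts] (n₁ : ℤ) (h : ∀ n ≥ n₁, G (O n)) (M : T)
    {a b : ℤ} (hM : R M a b) (r : ℕ) :
    ∃ (M' : T) (f : M ⟶ M'), G.trW f ∧ (IsZero M' ∨ ∃ c d : ℤ, R M' c d ∧ d ≤ b - r) := by
  induction r with
  | zero => exact ⟨M, 𝟙 M, MorphismProperty.id_mem _ _, Or.inr ⟨a, b, hM, by simp⟩⟩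
  | succ r ih =>
    obtain ⟨N, f, hf, hN⟩ := ih
    rcases hN with hN | ⟨c, d, hR, hd⟩
    · exact ⟨N, f, hf, Or.inl hN⟩
    by_cases hcd : d < c
    · exact ⟨N, f, hf, Or.inl (hT.zero_of N c d hR hcd)⟩
    obtain ⟨n, hn, k, e, he⟩ := hT.step N c d hR (not_lt.1 hcd) n₁
    obtain ⟨N', p, q, hD⟩ := distinguished_cocone_triangle e
    refine ⟨N', f ≫ p, ?_, Or.inr ⟨_, _, he N' p q hD, by push_cast; omega⟩⟩
    refine MorphismProperty.comp_mem _ _ _ hf ?_
    refine ObjectProperty.trW.mk' G hD ?_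
    exact G.prop_of_isLimit_fan (biproduct.isLimit _) (fun j => G.le_shift (-d) _ (h n hn))

theorem generate {T : Type u} [Category.{v} T] [Preadditive T] [Linear ℂ T] [HasZeroObject T]
    [HasShift T ℤ] [∀ n : ℤ, (shiftFunctor T n).Additive] [Pretriangulated T] [IsTriangulated T]
    {O : ℤ → T} {R : T → ℤ → ℤ → Prop} (hT : SurfaceBase O R) (G : ObjectProperty T)
    [G.IsTriangulated] [G.IsStableUnderRetracts] (n₁ : ℤ) (h : ∀ n ≥ n₁, G (O n)) (M : T) :
    G M := by
  obtain ⟨a, b, hM⟩ := hT.exists_range M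
  obtain ⟨D, hD⟩ := hT.homdim
  obtain ⟨M', f, hf, hM'⟩ := go_down hT G n₁ h M hM (b + D - a).toNat
  have hf0 : f = 0 := by
    rcases hM' with hz | ⟨c, d, hR, hd⟩
    · exact hz.eq_of_tgt f 0
    · refine hD M M' a b c d hM hR ?_ f
      have := Int.self_le_toNat (b + D - a)
      omega
  rw [ObjectProperty.trW_iff] at hf
  obtain ⟨Z, g, q, hdist, hZ⟩ := hf
  obtain ⟨s, hs⟩ : ∃ s : M⟦(1 : ℤ)⟧ ⟶ Z, 𝟙 (M⟦(1 : ℤ)⟧) = s ≫ q :=
    Triangle.coyoneda_exact₁ _ hdist (𝟙 (M⟦(1 : ℤ)⟧)) (by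
      change 𝟙 _ ≫ f⟦(1 : ℤ)⟧' = 0
      rw [hf0, Functor.map_zero, comp_zero])
  have h1 : G (M⟦(1 : ℤ)⟧) := G.prop_of_retract ⟨s, q, hs.symm⟩ hZ
  exact (G.prop_shift_iff_of_isStableUnderShift M (1 : ℤ)).1 h1

end Pool.Agent.H63.KA
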