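import Pool.Agent.H63.KA.Gen

/-!
# KA-7 Nondeg (a nonzero cyclic trace on a point object is nondegenerate)

`Y` a point-like object, `l` a cyclic trace, `k₀ : Y ⟶ Y[2]` with `l.tr Y k₀ ≠ 0`.
For `N : T`, put `η_N : Hom(Y, N[2]) →ₗ Hom(N, Y)^*`, `η_N p h = l.tr Y (p ≫ h⟦2⟧')`.
Let `G` be the property: for all `i : ℤ`, `η_{N[i]}` is bijective.
(a) `G (O n)` for every `n`: for `i ≠ 0` both sides are zero: `Hom((O n)⟦i⟧, Y) ≅ Hom(O n, Y⟦-i⟧) = 0`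
(`left_zero`), and `Hom(Y, (O n)⟦i⟧⟦2⟧) ≅ Hom(Y, (O n)⟦i + 2⟧) = 0` (`right_zero`). For `i = 0`
(up to `N⟦0⟧ ≅ N`) both sides have dimension `≤ 1` (`left_one`, `right_one`; they are finite
dimensional by `extFin`) and `η ≠ 0`: by `lift`, `k₀ = k' ≫ h⟦2⟧'`, so `η k' h = l.tr Y k₀ ≠ 0`.
(b) `G` is triangulated: for a triangle `N₁ ⟶ N₂ ⟶ N₃ ⟶ N₁[1]` the maps `η` form a commutative
ladder between the long exact sequences of `Hom(Y, -[2])` (homological functor, shifted triangle)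
and of `Hom(-, Y)^*` (the dual of the long exact sequence of `Hom(-, Y)`; over a field the dual of
an exact sequence is exact); naturality: for `f : N ⟶ N'`,
`η_{N'} (p ≫ f⟦2⟧') h = l (p ≫ f⟦2⟧' ≫ h⟦2⟧') = η_N p (f ≫ h)`. Five lemma
(`LinearMap.bijective_of_surjective_of_bijective_of_bijective_of_injective` or by hand); it is
convenient to prove closure under extensions `IsTriangulatedClosed₂` and stability under shifts
(by definition, up to `N⟦i⟧⟦j⟧ ≅ N⟦i + j⟧`), zero object clear.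
(c) `G` is stable under retracts: a retract of a bijective natural map is bijective.
(d) By `generate`, `G N` for every `N`; injectivity of `η_N` (with `i = 0`) is the claim.
-/

namespace Pool.Agent.H63.KA

open CategoryTheory Limits Pretriangulated

universe v u

variable {T : Type u} [Category.{v} T] [Preadditive T] [Linear ℂ T] [HasZeroObject T]
    [HasShift T ℤ] [∀ n : ℤ, (shiftFunctor T n).Additive] [∀ n : ℤ, (shiftFunctor T n).Linear ℂ]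
    [Pretriangulated T] [IsTriangulated T]
    {O : ℤ → T} {R : T → ℤ → ℤ → Prop}

section NondegAux

omit [HasZeroObject T] [∀ n : ℤ, (shiftFunctor T n).Additive]
  [∀ n : ℤ, (shiftFunctor T n).Linear ℂ] [Pretriangulated T] [IsTriangulated T]

/-- the pairing `Hom(Y, N[2]) × Hom(N, Y) → ℂ` is perfect (injectivity and surjectivity of
`Hom(Y, N[2]) → Hom(N, Y)^*`) -/
private def Perf (l : CycTrace T) (Y N : T) : Prop :=
  (∀ p : Y ⟶ N⟦(2 : ℤ)⟧, (∀ h : N ⟶ Y, l.tr Y (p ≫ h⟦(2 : ℤ)⟧') = 0) → p = 0) ∧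
  (∀ φ : (N ⟶ Y) →ₗ[ℂ] ℂ, ∃ p : Y ⟶ N⟦(2 : ℤ)⟧, ∀ h : N ⟶ Y,
    l.tr Y (p ≫ h⟦(2 : ℤ)⟧') = φ h)

private theorem perf_retract (l : CycTrace T) {Y N X : T} (r : Retract X N)
    (h : Perf l Y N) : Perf l Y X := by
  constructor
  · intro p hp
    have h1 : p ≫ r.i⟦(2 : ℤ)⟧' = 0 := by
      apply h.1
      intro g
      rw [Category.assoc, ← Functor.map_comp]
      exact hp _
    calc p = p ≫ (r.i ≫ r.r)⟦(2 : ℤ)⟧' := by rw [r.retract]; simp
      _ = (p ≫ r.i⟦(2 : ℤ)⟧') ≫ r.r⟦(2 : ℤ)⟧' := by rw [Functor.map_comp, Category.assoc]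
      _ = 0 := by rw [h1, zero_comp]
  · intro φ
    obtain ⟨p, hp⟩ := h.2 (φ.comp (Linear.leftComp ℂ Y r.i))
    refine ⟨p ≫ r.r⟦(2 : ℤ)⟧', fun g => ?_⟩
    rw [Category.assoc, ← Functor.map_comp, hp]
    show φ (r.i ≫ r.r ≫ g) = φ g
    rw [← Category.assoc, r.retract, Category.id_comp]

private theorem perf_iso (l : CycTrace T) {Y N X : T} (e : X ≅ N)
    (h : Perf l Y N) : Perf l Y X :=
  perf_retract l (Retract.ofIso e) h

/-- a functional that vanishes on the kernel of a linear map factors through the map -/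
private theorem functional_factor {V W : Type*} [AddCommGroup V] [Module ℂ V] [AddCommGroup W]
    [Module ℂ W] (A : V →ₗ[ℂ] W) (φ : V →ₗ[ℂ] ℂ) (h : ∀ v, A v = 0 → φ v = 0) :
    ∃ ψ : W →ₗ[ℂ] ℂ, ∀ v, ψ (A v) = φ v := by
  have h1 : φ ∈ LinearMap.range A.dualMap := by
    rw [LinearMap.range_dualMap_eq_dualAnnihilator_ker, Submodule.mem_dualAnnihilator]
    intro v hv
    exact h v hv
  obtain ⟨ψ, hψ⟩ := h1
  exact ⟨ψ, fun v => by rw [← hψ]; rfl⟩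

end NondegAux

section NondegTri

omit [Linear ℂ T] [∀ n : ℤ, (shiftFunctor T n).Linear ℂ] [IsTriangulated T] in
private theorem shift2_exact {E M M' A : T} {e : E ⟶ M} {p : M ⟶ M'} {q : M' ⟶ E⟦(1 : ℤ)⟧}
    (htri : Triangle.mk e p q ∈ distTriang T) (k : A ⟶ M⟦(2 : ℤ)⟧)
    (h0 : k ≫ (shiftFunctor T (2 : ℤ)).map p = 0) :
    ∃ k' : A ⟶ E⟦(2 : ℤ)⟧, k = k' ≫ (shiftFunctor T (2 : ℤ)).map e := by
  have htri2 := Triangle.shift_distinguished _ htri 2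
  have h2 : (Int.negOnePow 2) = 1 := by decide
  have hm1 : ((shiftFunctor (Triangle T) (2 : ℤ)).obj (Triangle.mk e p q)).mor₁ =
      (shiftFunctor T (2 : ℤ)).map e := by
    change (Int.negOnePow 2) • (shiftFunctor T (2 : ℤ)).map e = _
    rw [h2, one_smul]
  have hm2 : ((shiftFunctor (Triangle T) (2 : ℤ)).obj (Triangle.mk e p q)).mor₂ =
      (shiftFunctor T (2 : ℤ)).map p := by
    change (Int.negOnePow 2) • (shiftFunctor T (2 : ℤ)).map p = _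
    rw [h2, one_smul]
  have h3 : (show A ⟶ ((shiftFunctor (Triangle T) (2 : ℤ)).obj (Triangle.mk e p q)).obj₂ from k) ≫
      ((shiftFunctor (Triangle T) (2 : ℤ)).obj (Triangle.mk e p q)).mor₂ = 0 := by
    rw [hm2]
    exact h0
  obtain ⟨k', hk'⟩ := Triangle.coyoneda_exact₂ _ htri2 _ h3
  refine ⟨k', ?_⟩
  rw [hm1] at hk'
  exact hk'

omit [HasZeroObject T] [∀ n : ℤ, (shiftFunctor T n).Additive] [Pretriangulated T]
  [IsTriangulated T] in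
/-- the functional `h ↦ l (p ≫ h[2])` -/
private theorem exists_eta [∀ n : ℤ, (shiftFunctor T n).Additive] (l : CycTrace T) {Y N : T}
    (p : Y ⟶ N⟦(2 : ℤ)⟧) :
    ∃ φ : (N ⟶ Y) →ₗ[ℂ] ℂ, ∀ h, φ h = l.tr Y (p ≫ h⟦(2 : ℤ)⟧') :=
  ⟨{ toFun := fun h => l.tr Y (p ≫ h⟦(2 : ℤ)⟧')
     map_add' := fun h h' => by rw [Functor.map_add, Preadditive.comp_add, map_add]
     map_smul' := fun r h => by
      rw [Functor.map_smul, Linear.comp_smul, map_smul, RingHom.id_apply] }, fun _ => rfl⟩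

omit [IsTriangulated T] in
/-- the five lemma, injectivity: `w : N₀ ⟶ N₁`, `f : N₁ ⟶ N₂`, `g : N₂ ⟶ N₃` -/
private theorem five_inj (l : CycTrace T) (Y : T) {N₀ N₁ N₂ N₃ : T} {w : N₀ ⟶ N₁}
    {f : N₁ ⟶ N₂} {g : N₂ ⟶ N₃} {u : N₂ ⟶ N₀⟦(1 : ℤ)⟧} {d : N₃ ⟶ N₁⟦(1 : ℤ)⟧}
    (h₁ : Triangle.mk w f u ∈ distTriang T) (h₂ : Triangle.mk f g d ∈ distTriang T)
    (H₀ : Perf l Y N₀) (H₁ : Perf l Y N₁) (H₃ : Perf l Y N₃)
    (p : Y ⟶ N₂⟦(2 : ℤ)⟧) (hp : ∀ h : N₂ ⟶ Y, l.tr Y (p ≫ h⟦(2 : ℤ)⟧') = 0) : p = 0 := by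
  have hpg : p ≫ g⟦(2 : ℤ)⟧' = 0 := by
    apply H₃.1
    intro h
    rw [Category.assoc, ← Functor.map_comp]
    exact hp _
  obtain ⟨p', rfl⟩ := shift2_exact h₂ p hpg
  -- the functional `h' ↦ l (p' ≫ h'[2])`
  obtain ⟨φ, hφ⟩ := exists_eta l p'
  obtain ⟨ψ, hψ⟩ := functional_factor (Linear.leftComp ℂ Y w) φ (by
    intro h' hh'
    obtain ⟨h, rfl⟩ : ∃ h : N₂ ⟶ Y, h' = f ≫ h := Triangle.yoneda_exact₂ _ h₁ h' hh'
    rw [hφ, Functor.map_comp, ← Category.assoc]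
    exact hp h)
  obtain ⟨s, hs⟩ := H₀.2 ψ
  have hp' : p' - s ≫ w⟦(2 : ℤ)⟧' = 0 := by
    apply H₁.1
    intro h'
    rw [Preadditive.sub_comp, map_sub, ← hφ, Category.assoc, ← Functor.map_comp, hs,
      sub_eq_zero]
    exact (hψ h').symm
  rw [sub_eq_zero.1 hp', Category.assoc, ← Functor.map_comp,
    show w ≫ f = 0 from comp_distTriang_mor_zero₁₂ _ h₁, Functor.map_zero, comp_zero]

omit [IsTriangulated T] in
/-- the five lemma, surjectivity -/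
private theorem five_surj (l : CycTrace T) (Y : T) {N₁ N₂ N₃ : T}
    {f : N₁ ⟶ N₂} {g : N₂ ⟶ N₃} {d : N₃ ⟶ N₁⟦(1 : ℤ)⟧}
    (h₂ : Triangle.mk f g d ∈ distTriang T)
    (H₁ : Perf l Y N₁) (H₃ : Perf l Y N₃) (H₄ : Perf l Y (N₁⟦(1 : ℤ)⟧))
    (φ : (N₂ ⟶ Y) →ₗ[ℂ] ℂ) :
    ∃ p : Y ⟶ N₂⟦(2 : ℤ)⟧, ∀ h : N₂ ⟶ Y, l.tr Y (p ≫ h⟦(2 : ℤ)⟧') = φ h := by
  have h₃ : Triangle.mk g d (-f⟦(1 : ℤ)⟧') ∈ distTriang T := rot_of_distTriang _ h₂
  obtain ⟨q, hq⟩ := H₃.2 (φ.comp (Linear.leftComp ℂ Y g))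
  have hqd : q ≫ d⟦(2 : ℤ)⟧' = 0 := by
    apply H₄.1
    intro h
    rw [Category.assoc, ← Functor.map_comp, hq]
    show φ (g ≫ d ≫ h) = 0
    rw [← Category.assoc, show g ≫ d = 0 from comp_distTriang_mor_zero₁₂ _ h₃, zero_comp,
      map_zero]
  obtain ⟨q', rfl⟩ := shift2_exact h₃ q hqd
  obtain ⟨φ', hφ'⟩ := exists_eta l q'
  obtain ⟨ψ, hψ⟩ := functional_factor (Linear.leftComp ℂ Y f) (φ - φ') (by
    intro h hh
    obtain ⟨h', rfl⟩ : ∃ h' : N₃ ⟶ Y, h = g ≫ h' := Triangle.yoneda_exact₂ _ h₂ h hh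
    have := hq h'
    rw [LinearMap.sub_apply, hφ', Functor.map_comp, ← Category.assoc, this, sub_eq_zero]
    rfl)
  obtain ⟨r, hr⟩ := H₁.2 ψ
  refine ⟨q' + r ≫ f⟦(2 : ℤ)⟧', fun h => ?_⟩
  have h5 : ψ (f ≫ h) = φ h - φ' h := hψ h
  rw [Preadditive.add_comp, map_add, ← hφ', Category.assoc, ← Functor.map_comp, hr, h5]
  ring

omit [IsTriangulated T] in
private theorem perf_tri (l : CycTrace T) (Y : T) (Tr : Triangle T) (hTr : Tr ∈ distTriang T)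
    (H₁ : Perf l Y Tr.obj₁) (H₃ : Perf l Y Tr.obj₃) (H₀ : Perf l Y (Tr.obj₃⟦(-1 : ℤ)⟧))
    (H₄ : Perf l Y (Tr.obj₁⟦(1 : ℤ)⟧)) : Perf l Y Tr.obj₂ := by
  have h₁ := inv_rot_of_distTriang _ hTr
  exact ⟨five_inj l Y h₁ hTr H₀ H₁ H₃, five_surj l Y hTr H₁ H₃ H₄⟩

/-- all shifts of `N` have a perfect pairing with `Y` -/
private def PerfAll (l : CycTrace T) (Y : T) : ObjectProperty T :=
  fun N => ∀ i : ℤ, Perf l Y (N⟦i⟧)

omit [HasZeroObject T] [IsTriangulated T] [∀ n : ℤ, (shiftFunctor T n).Linear ℂ]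
  [Pretriangulated T] in
private theorem perf_zero (l : CycTrace T) (Y : T) {N : T} (hN : IsZero N) : Perf l Y N := by
  refine ⟨fun p _ => ?_, fun φ => ⟨0, fun h => ?_⟩⟩
  · exact ((shiftFunctor T (2 : ℤ)).map_isZero hN).eq_of_tgt _ _
  · have : h = 0 := hN.eq_of_src _ _
    rw [this, zero_comp, map_zero, map_zero]

private instance (l : CycTrace T) (Y : T) : (PerfAll l Y).IsStableUnderRetracts where
  of_retract r h i := perf_retract l (r.map (shiftFunctor T i)) (h i)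

private instance (l : CycTrace T) (Y : T) : (PerfAll l Y).IsTriangulated where
  exists_zero := by
    obtain ⟨Z, hZ⟩ := HasZeroObject.zero (C := T)
    exact ⟨Z, hZ, fun i => perf_zero l Y ((shiftFunctor T i).map_isZero hZ)⟩
  isStableUnderShiftBy a := ⟨fun X h i => perf_iso l ((shiftFunctorAdd T a i).symm.app X) (h _)⟩
  ext₂' Tr hTr h₁ h₃ := by
    refine ObjectProperty.le_isoClosure _ _ fun i => ?_
    have h := Triangle.shift_distinguished _ hTr i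
    exact perf_tri l Y _ h (h₁ i) (h₃ i)
      (perf_iso l ((shiftFunctorAdd T i (-1)).symm.app _) (h₃ _))
      (perf_iso l ((shiftFunctorAdd T i 1).symm.app _) (h₁ _))

end NondegTri

section NondegO

omit [Linear ℂ T] [HasZeroObject T] [∀ n : ℤ, (shiftFunctor T n).Linear ℂ] [Pretriangulated T]
  [IsTriangulated T] in
/-- maps out of `A⟦i⟧` -/
private theorem from_shift_zero {A M : T} (i : ℤ)
    (h : ∀ f : A ⟶ M⟦-i⟧, f = 0) (f : A⟦i⟧ ⟶ M) : f = 0 := by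
  apply (shiftFunctor T (-i)).map_injective
  rw [Functor.map_zero]
  rw [← cancel_epi ((shiftFunctorCompIsoId T i (-i) (by simp)).inv.app A), comp_zero]
  exact h _

/-- one dimensional spaces with a nonzero pairing -/
private theorem one_dim {V W : Type*} [AddCommGroup V] [Module ℂ V] [AddCommGroup W] [Module ℂ W]
    [Module.Finite ℂ V] [Module.Finite ℂ W] (hV : Module.finrank ℂ V ≤ 1)
    (hW : Module.finrank ℂ W ≤ 1) (B : V → W → ℂ) (hB₁ : ∀ (c : ℂ) v w, B (c • v) w = c * B v w)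
    (hB₂ : ∀ (c : ℂ) v w, B v (c • w) = c * B v w) (v₀ : V) (w₀ : W) (h : B v₀ w₀ ≠ 0) :
    (∀ v, (∀ w, B v w = 0) → v = 0) ∧ ∀ φ : W →ₗ[ℂ] ℂ, ∃ v, ∀ w, B v w = φ w := by
  have hv₀ : v₀ ≠ 0 := by
    rintro rfl
    have := hB₁ 0 0 w₀
    rw [zero_smul, zero_mul] at this
    exact h this
  have hw₀ : w₀ ≠ 0 := by
    rintro rfl
    have := hB₂ 0 v₀ 0
    rw [zero_smul, zero_mul] at this
    exact h this
  have : Nontrivial V := ⟨⟨v₀, 0, hv₀⟩⟩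
  have : Nontrivial W := ⟨⟨w₀, 0, hw₀⟩⟩
  have hV1 : Module.finrank ℂ V = 1 := le_antisymm hV Module.finrank_pos
  have hW1 : Module.finrank ℂ W = 1 := le_antisymm hW Module.finrank_pos
  rw [finrank_eq_one_iff_of_nonzero' v₀ hv₀] at hV1
  rw [finrank_eq_one_iff_of_nonzero' w₀ hw₀] at hW1
  constructor
  · intro v hv
    obtain ⟨c, rfl⟩ := hV1 v
    have h1 := hv w₀
    rw [hB₁] at h1
    rcases mul_eq_zero.1 h1 with h2 | h2
    · rw [h2, zero_smul]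
    · exact absurd h2 h
  · intro φ
    refine ⟨(φ w₀ / B v₀ w₀) • v₀, fun w => ?_⟩
    obtain ⟨c, rfl⟩ := hW1 w
    rw [hB₁, hB₂, map_smul, smul_eq_mul]
    field_simp

omit [IsTriangulated T] in
private theorem perfAll_O (hT : SurfaceBase O R) {Y : T} (hY : IsPoint O Y) (l : CycTrace T)
    (k₀ : Y ⟶ Y⟦(2 : ℤ)⟧) (hk₀ : l.tr Y k₀ ≠ 0) (n : ℤ) : PerfAll l Y (O n) := by
  intro i
  by_cases hi : i = 0
  · subst hi
    refine perf_iso l ((shiftFunctorZero T ℤ).app (O n)) ?_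
    obtain ⟨h₀, hh₀⟩ := hY.lift n
    obtain ⟨k', hk'⟩ := hh₀ k₀
    have f1 : Module.Finite ℂ (Y ⟶ (O n)⟦(2 : ℤ)⟧) := (hT.extFin Y (O n)).fin 2
    have f2 : Module.Finite ℂ (O n ⟶ Y) := by
      have h1 := (hT.extFin (O n) Y).fin 0
      have e : Y⟦(0 : ℤ)⟧ ≅ Y := (shiftFunctorZero T ℤ).app Y
      refine Module.Finite.of_surjective (Linear.rightComp ℂ (O n) e.hom) ?_
      intro f
      exact ⟨f ≫ e.inv, by simp [Linear.rightComp]⟩
    refine one_dim (hY.right_one n) (hY.left_one n)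
      (fun (p : Y ⟶ (O n)⟦(2 : ℤ)⟧) (h : O n ⟶ Y) => l.tr Y (p ≫ h⟦(2 : ℤ)⟧')) ?_ ?_ k' h₀ ?_
    · intro c v w
      rw [Linear.smul_comp, map_smul, smul_eq_mul]
    · intro c v w
      rw [Functor.map_smul, Linear.comp_smul, map_smul, smul_eq_mul]
    · rw [← hk']
      exact hk₀
  · refine ⟨fun p _ => ?_, fun φ => ⟨0, fun h => ?_⟩⟩
    · have h1 := hY.right_zero n (i + 2) (by omega)
        (p ≫ (shiftFunctorAdd T i (2 : ℤ)).inv.app (O n))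
      rw [← cancel_mono ((shiftFunctorAdd T i (2 : ℤ)).inv.app (O n)), h1, zero_comp]
    · have h1 : h = 0 := from_shift_zero i (hY.left_zero n (-i) (by omega)) h
      rw [h1, zero_comp, map_zero, map_zero]

end NondegO

theorem nondeg (hT : SurfaceBase O R) {Y : T} (hY : IsPoint O Y) (l : CycTrace T)
    (k₀ : Y ⟶ Y⟦(2 : ℤ)⟧) (hk₀ : l.tr Y k₀ ≠ 0) (N : T) (p : Y ⟶ N⟦(2 : ℤ)⟧)
    (hp : ∀ h : N ⟶ Y, l.tr Y (p ≫ h⟦(2 : ℤ)⟧') = 0) : p = 0 := by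
  have h1 : PerfAll l Y N := generate hT (PerfAll l Y) 0
    (fun n _ => perfAll_O hT hY l k₀ hk₀ n) N
  have h2 : Perf l Y N := perf_iso l ((shiftFunctorZero T ℤ).symm.app N) (h1 0)
  exact h2.1 p hp

end Pool.Agent.H63.KA
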